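import Pool.Agent.L5helper14.RDM.Dig

/-!
# Exponential sums over the palindromes (helper file)

Owner helper14.
-/

set_option autoImplicit false

namespace Pool.Agent.L5helper14.RDM

open Finset Filter
open Pool.Agent.H469R2.NK (e norm_e e_add)

/-- The natural numbers with `n` digits in base `b` (the first one is not zero) whose digits number `i`
and `n - 1 - i` are equal for all `i < n`. -/
def palindromes (b n : ℕ) : Finset ℕ :=
  (Ico (b ^ (n - 1)) (b ^ n)).filter fun m => ∀ i < n, digit b i m = digit b (n - 1 - i) m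

/-- The number with the higher digits `u` and the same digits in the opposite order. -/
def pal (b h c u : ℕ) : ℕ := u * b ^ h + ∑ i ∈ range h, digit b (c - 1 - i) u * b ^ i

lemma digit_lt {b : ℕ} (hb : 1 ≤ b) (i m : ℕ) : digit b i m < b := Nat.mod_lt _ (by omega)

lemma digit_sum {b : ℕ} (hb : 1 ≤ b) (a : ℕ → ℕ) : ∀ h : ℕ, (∀ i < h, a i < b) →
    (∑ j ∈ range h, a j * b ^ j < b ^ h) ∧
      ∀ i < h, digit b i (∑ j ∈ range h, a j * b ^ j) = a i := by
  intro h
  induction h with
  | zero => intro _; simp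
  | succ h ih =>
    intro ha
    obtain ⟨h1, h2⟩ := ih fun i hi => ha i (by omega)
    have hbh : 0 < b ^ h := pow_pos (by omega) h
    have hah := ha h (by omega)
    have hlt : ∑ j ∈ range (h + 1), a j * b ^ j < b ^ (h + 1) := by
      rw [sum_range_succ, pow_succ]
      calc ∑ j ∈ range h, a j * b ^ j + a h * b ^ h < b ^ h + a h * b ^ h := by omega
        _ = (a h + 1) * b ^ h := by ring
        _ ≤ b * b ^ h := Nat.mul_le_mul_right _ hah
        _ = b ^ h * b := by ring
    refine ⟨hlt, fun i hi => ?_⟩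
    have hmod : (∑ j ∈ range (h + 1), a j * b ^ j) % b ^ h = ∑ j ∈ range h, a j * b ^ j := by
      rw [sum_range_succ, Nat.add_mul_mod_self_right, Nat.mod_eq_of_lt h1]
    have hdiv : (∑ j ∈ range (h + 1), a j * b ^ j) / b ^ h = a h := by
      rw [sum_range_succ, Nat.add_mul_div_right _ _ hbh, Nat.div_eq_of_lt h1, zero_add]
    rcases Nat.lt_succ_iff_lt_or_eq.1 hi with h3 | h3
    · rw [← digit_mod h3, hmod]
      exact h2 i h3
    · rw [h3, digit_top hlt, hdiv]

lemma digit_shift (b h j m : ℕ) : digit b (h + j) m = digit b j (m / b ^ h) := by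
  unfold digit
  rw [pow_add, Nat.div_div_eq_div_mul]

lemma pal_low {b : ℕ} (hb : 1 ≤ b) {h c : ℕ} (u : ℕ) {i : ℕ} (hi : i < h) :
    digit b i (pal b h c u) = digit b (c - 1 - i) u := by
  obtain ⟨h1, h2⟩ := digit_sum hb (fun i => digit b (c - 1 - i) u) h
    fun i _ => digit_lt hb _ _
  have hmod : pal b h c u % b ^ h = ∑ i ∈ range h, digit b (c - 1 - i) u * b ^ i := by
    unfold pal
    rw [add_comm, Nat.add_mul_mod_self_right, Nat.mod_eq_of_lt h1]
  rw [← digit_mod hi, hmod]
  exact h2 i hi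

lemma pal_div {b : ℕ} (hb : 1 ≤ b) {h c : ℕ} (u : ℕ) : pal b h c u / b ^ h = u := by
  obtain ⟨h1, -⟩ := digit_sum hb (fun i => digit b (c - 1 - i) u) h
    fun i _ => digit_lt hb _ _
  unfold pal
  rw [add_comm, Nat.add_mul_div_right _ _ (pow_pos (by omega) h), Nat.div_eq_of_lt h1, zero_add]

lemma pal_high {b : ℕ} (hb : 1 ≤ b) {h c : ℕ} (u j : ℕ) :
    digit b (h + j) (pal b h c u) = digit b j u := by
  rw [digit_shift, pal_div hb]

lemma pal_eq (b h c u : ℕ) (hc : h ≤ c) (hu : u < b ^ c) :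
    pal b h c u = ∑ j ∈ range c, digit b j u * (b ^ (h + j) + if c - h ≤ j then b ^ (c - 1 - j) else 0) := by
  have h1 : ∑ j ∈ range c, digit b j u * (b ^ (h + j) + if c - h ≤ j then b ^ (c - 1 - j) else 0) =
      ∑ j ∈ range c, digit b j u * b ^ (h + j) +
        ∑ j ∈ range c, if c - h ≤ j then digit b j u * b ^ (c - 1 - j) else 0 := by
    rw [← sum_add_distrib]
    refine sum_congr rfl fun j _ => ?_
    split_ifs <;> ring
  rw [h1]
  unfold pal
  congr 1
  · have h2 := sum_digits b u c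
    rw [Nat.mod_eq_of_lt hu] at h2
    conv_lhs => rw [← h2]
    rw [sum_mul]
    refine sum_congr rfl fun j _ => ?_
    rw [pow_add]
    ring
  · rw [← sum_filter]
    refine sum_nbij' (fun i => c - 1 - i) (fun j => c - 1 - j) ?_ ?_ ?_ ?_ ?_
    · intro i hi
      have := mem_range.1 hi
      rw [mem_filter, mem_range]
      omega
    · intro j hj
      rw [mem_filter, mem_range] at hj
      rw [mem_range]
      omega
    · intro i hi
      have := mem_range.1 hi
      omega
    · intro j hj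
      rw [mem_filter, mem_range] at hj
      omega
    · intro i hi
      have := mem_range.1 hi
      congr 2
      omega

/-- The palindromes are parametrized by their higher digits. -/
theorem sum_palindromes {b : ℕ} (hb : 2 ≤ b) {n : ℕ} (hn : 1 ≤ n) (f : ℕ → ℂ) :
    ∑ m ∈ palindromes b n, f m =
      ∑ u ∈ Ico (b ^ (n - n / 2 - 1)) (b ^ (n - n / 2)), f (pal b (n / 2) (n - n / 2) u) := by
  obtain ⟨h, hh⟩ : ∃ h, h = n / 2 := ⟨_, rfl⟩
  obtain ⟨c, hc⟩ : ∃ c, c = n - n / 2 := ⟨_, rfl⟩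
  rw [← hc, ← hh]
  have hbh : 0 < b ^ h := pow_pos (by omega) h
  refine sum_nbij' (fun m => m / b ^ h) (fun u => pal b h c u) ?_ ?_ ?_ ?_ ?_
  · intro m hm
    obtain ⟨h1, -⟩ := mem_filter.1 hm
    obtain ⟨h2, h3⟩ := mem_Ico.1 h1
    rw [mem_Ico]
    constructor
    · rw [Nat.le_div_iff_mul_le hbh, ← pow_add]
      have : c - 1 + h = n - 1 := by omega
      rw [this]
      exact h2
    · apply Nat.div_lt_of_lt_mul
      rw [← pow_add]
      have : h + c = n := by omega
      rw [this]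
      exact h3
  · intro u hu
    obtain ⟨h2, h3⟩ := mem_Ico.1 hu
    obtain ⟨h4, -⟩ := digit_sum (b := b) (by omega) (fun i => digit b (c - 1 - i) u) h
      fun i _ => digit_lt (by omega) _ _
    refine mem_filter.2 ⟨mem_Ico.2 ⟨?_, ?_⟩, fun i hi => ?_⟩
    · have : n - 1 = c - 1 + h := by omega
      rw [this, pow_add]
      unfold pal
      exact (Nat.mul_le_mul_right _ h2).trans (Nat.le_add_right _ _)
    · have : n = c + h := by omega
      rw [this, pow_add]
      unfold pal
      calc u * b ^ h + ∑ i ∈ range h, digit b (c - 1 - i) u * b ^ i < u * b ^ h + b ^ h := by omega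
        _ = (u + 1) * b ^ h := by ring
        _ ≤ b ^ c * b ^ h := Nat.mul_le_mul_right _ h3
    · rcases Nat.lt_or_ge i h with h5 | h5
      · rw [pal_low (by omega) u h5]
        have : n - 1 - i = h + (c - 1 - i) := by omega
        rw [this, pal_high (by omega)]
      · rcases Nat.lt_or_ge (n - 1 - i) h with h6 | h6
        · rw [pal_low (by omega) u h6]
          have h7 : i = h + (i - h) := by omega
          conv_lhs => rw [h7]
          rw [pal_high (by omega)]
          congr 1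
          omega
        · congr 1
          omega
  · intro m hm
    obtain ⟨h1, h2⟩ := mem_filter.1 hm
    unfold pal
    have h3 : ∑ i ∈ range h, digit b (c - 1 - i) (m / b ^ h) * b ^ i = m % b ^ h := by
      rw [← sum_digits]
      refine sum_congr rfl fun i hi => ?_
      have hi' := mem_range.1 hi
      rw [← digit_shift, h2 i (by omega)]
      congr 2
      omega
    rw [h3]
    exact Nat.div_add_mod' m (b ^ h)
  · intro u _
    exact pal_div (by omega) u
  · intro m hm
    obtain ⟨h1, h2⟩ := mem_filter.1 hm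
    congr 1
    unfold pal
    have h3 : ∑ i ∈ range h, digit b (c - 1 - i) (m / b ^ h) * b ^ i = m % b ^ h := by
      rw [← sum_digits]
      refine sum_congr rfl fun i hi => ?_
      have hi' := mem_range.1 hi
      rw [← digit_shift, h2 i (by omega)]
      congr 2
      omega
    rw [h3]
    exact (Nat.div_add_mod' m (b ^ h)).symm

/-- The digits of the numbers with `c` digits. -/
def full (b c i : ℕ) : Finset ℕ := if i = c - 1 then Ico 1 b else range b

lemma numbers_full {b : ℕ} (hb : 2 ≤ b) {c : ℕ} (hc : 1 ≤ c) :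
    numbers b c (full b c) = Ico (b ^ (c - 1)) (b ^ c) := by
  ext m
  have hbc : 0 < b ^ (c - 1) := pow_pos (by omega) _
  unfold numbers full
  rw [mem_filter, mem_range, mem_Ico]
  constructor
  · rintro ⟨h1, h2⟩
    refine ⟨?_, h1⟩
    have h3 := h2 (c - 1) (by omega)
    rw [if_pos rfl, mem_Ico, digit_top (by rwa [Nat.sub_add_cancel hc])] at h3
    by_contra hlt
    rw [Nat.div_eq_of_lt (by omega)] at h3
    omega
  · rintro ⟨h1, h2⟩
    refine ⟨h2, fun i hi => ?_⟩
    split_ifs with h3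
    · rw [mem_Ico, h3]
      refine ⟨?_, digit_lt (by omega) _ _⟩
      rw [digit_top (by rwa [Nat.sub_add_cancel hc]), Nat.one_le_div_iff hbc]
      exact h1
    · exact mem_range.2 (digit_lt (by omega) _ _)

/-- **Exponential sums over the palindromes.** -/
theorem palindromes_small {b : ℕ} (hb : 2 ≤ b) {θ : ℝ} (hθ : Irrational θ) {ε : ℝ} (hε : 0 < ε) :
    ∃ n₀ : ℕ, ∀ n, n₀ ≤ n →
      ‖∑ m ∈ palindromes b n, e (θ * m)‖ ≤ ε * (palindromes b n).card := by
  classical
  have hb0 : (0 : ℝ) < b := by exact_mod_cast (by omega : 0 < b)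
  have hb2 : (2 : ℝ) ≤ b := by exact_mod_cast hb
  have hθ' : Irrational (θ * ((b * b - 1 : ℕ) : ℝ)) := hθ.mul_natCast (by
    have : 4 ≤ b * b := by nlinarith
    omega)
  have hcast : (((b * b - 1 : ℕ) : ℕ) : ℝ) = (b : ℝ) * b - 1 := by
    have : 1 ≤ b * b := by nlinarith
    push_cast [Nat.cast_sub this]
    ring
  rw [hcast] at hθ'
  obtain ⟨c₁, hc₁⟩ : ∃ c : ℝ, c = (1 / (2 * (b : ℝ) ^ 1)) ^ 2 := ⟨_, rfl⟩
  have hc₁0 : 0 < c₁ := by rw [hc₁]; positivity
  obtain ⟨N, hN⟩ := exists_nat_gt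
    ((-Real.log ε * b / 4 * (2 * (1 + (b : ℝ) ^ 2)) + 1) / c₁)
  obtain ⟨M, hM⟩ := many_large hb le_rfl hθ' N
  refine ⟨2 * M + 4, fun n hn => ?_⟩
  obtain ⟨h, hh⟩ : ∃ h, h = n / 2 := ⟨_, rfl⟩
  obtain ⟨c, hc⟩ : ∃ c, c = n - n / 2 := ⟨_, rfl⟩
  have hhc : h ≤ c := by omega
  have hMh : M + 2 ≤ h := by omega
  obtain ⟨w, hw⟩ : ∃ w : ℕ → ℝ, w = fun j => (b : ℝ) ^ (h + j) +
      (if c - h ≤ j then (b : ℝ) ^ (c - 1 - j) else 0) := ⟨_, rfl⟩
  have hD : ∀ i < c, (full b c i).Nonempty ∧ full b c i ⊆ range b := by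
    intro i _
    unfold full
    split_ifs
    · exact ⟨⟨1, by simp; omega⟩, fun x hx => by rw [mem_Ico] at hx; exact mem_range.2 hx.2⟩
    · exact ⟨⟨0, by simp; omega⟩, fun x hx => hx⟩
  have hcard : ((palindromes b n).card : ℝ) = ∏ i ∈ range c, ((full b c i).card : ℝ) := by
    have h1 := sum_palindromes hb (n := n) (by omega) (fun _ => (1 : ℂ))
    simp only [sum_const, nsmul_eq_mul, mul_one] at h1
    have h2 : (palindromes b n).card = (Ico (b ^ (c - 1)) (b ^ c)).card := by
      rw [hc]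
      exact_mod_cast h1
    rw [h2, ← numbers_full hb (by omega), card_numbers (by omega) c fun i hi => (hD i hi).2]
    push_cast
    rfl
  have hsum : ∑ m ∈ palindromes b n, e (θ * m) =
      ∏ i ∈ range c, ∑ d ∈ full b c i, e (θ * (d * w i)) := by
    rw [sum_palindromes hb (by omega), ← hc, ← hh, ← numbers_full hb (by omega),
      ← sum_numbers (by omega) (fun i d => e (θ * (d * w i))) c fun i hi => (hD i hi).2]
    refine sum_congr rfl fun u hu => ?_
    rw [← e_sum, ← mul_sum, pal_eq b h c u hhc (mem_range.1 (mem_filter.1 hu).1)]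
    congr 2
    rw [hw]
    push_cast
    rfl
  rw [hsum, hcard]
  have h2 := prod_bound hb c hD (fun i d => θ * (d * w i)) (fun i => nn (θ * w i) ^ 2)
    (range (c - 1)) (by
      intro i hi
      rw [mem_range] at hi ⊢
      omega) (by
      intro i hi
      rw [mem_range] at hi
      have h3 : full b c i = range b := by
        unfold full
        rw [if_neg (by omega)]
      refine ⟨1, by rw [h3]; exact mem_range.2 (by omega), 0, by rw [h3]; exact mem_range.2 (by omega),
        one_ne_zero, le_of_eq ?_⟩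
      congr 2
      push_cast
      ring)
  refine h2.trans (mul_le_mul_of_nonneg_right ?_ (prod_nonneg fun _ _ => Nat.cast_nonneg _))
  -- the sum of the squares is large
  obtain ⟨A, hA⟩ : ∃ A : ℕ → ℝ, A = fun i => nn (θ * w i) ^ 2 := ⟨_, rfl⟩
  have hA0 : ∀ i, 0 ≤ A i := fun i => by rw [hA]; exact sq_nonneg _
  have h3 : ∀ j ∈ Ico 1 M, nn (θ * ((b : ℝ) * b - 1) * (b : ℝ) ^ j) ^ 2 ≤
      (1 + (b : ℝ) ^ 2) * (A (c - 1 - j) + A (c - 2 - j)) := by
    intro j hj
    obtain ⟨h4, h5⟩ := mem_Ico.1 hj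
    obtain ⟨i, hi⟩ : ∃ i, i = c - 2 - j := ⟨_, rfl⟩
    have hi1 : c - 1 - j = i + 1 := by omega
    have e1 : θ * ((b : ℝ) * b - 1) * (b : ℝ) ^ j = ((b : ℤ) : ℝ) * (θ * w i) + -(θ * w (i + 1)) := by
      rw [hw]
      simp only
      rw [if_pos (by omega), if_pos (by omega)]
      have e2 : c - 1 - i = j + 1 := by omega
      have e3 : c - 1 - (i + 1) = j := by omega
      rw [e2, e3, ← add_assoc h i 1, pow_succ (b : ℝ) (h + i), pow_succ (b : ℝ) j]
      push_cast
      ring
    have h6 : nn (θ * ((b : ℝ) * b - 1) * (b : ℝ) ^ j) ≤ b * nn (θ * w i) + nn (θ * w (i + 1)) := by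
      rw [e1]
      refine (nn_add _ _).trans ?_
      rw [nn_neg]
      have := nn_int_mul (b : ℤ) (θ * w i)
      have hab : |(((b : ℤ) : ℝ))| = b := by
        rw [Int.cast_natCast, Nat.abs_cast]
      rw [hab] at this
      linarith
    have h7 := pow_le_pow_left₀ (nn_nonneg _) h6 2
    refine h7.trans ?_
    rw [hi1, ← hi, hA]
    simp only
    nlinarith [sq_nonneg (nn (θ * w i) - b * nn (θ * w (i + 1)))]
  have h4 : ∑ j ∈ Ico 1 M, A (c - 1 - j) ≤ ∑ i ∈ range (c - 1), A i := by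
    have h5 : ∑ j ∈ Ico 1 M, A (c - 1 - j) = ∑ i ∈ (Ico 1 M).image (fun j => c - 1 - j), A i := by
      rw [sum_image]
      intro x hx y hy hxy
      simp only [coe_Ico, Set.mem_Ico] at hx hy hxy
      omega
    rw [h5]
    refine sum_le_sum_of_subset_of_nonneg ?_ fun i _ _ => hA0 i
    intro i hi
    obtain ⟨j, hj, rfl⟩ := mem_image.1 hi
    have := mem_Ico.1 hj
    exact mem_range.2 (by omega)
  have h5 : ∑ j ∈ Ico 1 M, A (c - 2 - j) ≤ ∑ i ∈ range (c - 1), A i := by
    have h5 : ∑ j ∈ Ico 1 M, A (c - 2 - j) = ∑ i ∈ (Ico 1 M).image (fun j => c - 2 - j), A i := by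
      rw [sum_image]
      intro x hx y hy hxy
      simp only [coe_Ico, Set.mem_Ico] at hx hy hxy
      omega
    rw [h5]
    refine sum_le_sum_of_subset_of_nonneg ?_ fun i _ _ => hA0 i
    intro i hi
    obtain ⟨j, hj, rfl⟩ := mem_image.1 hi
    have := mem_Ico.1 hj
    exact mem_range.2 (by omega)
  have h6 := hM M le_rfl (fun _ => True) (fun i hi => ⟨i, le_rfl, by omega, trivial⟩)
  have h7 : ∑ i ∈ (range M).filter (fun _ => True), nn (θ * ((b : ℝ) * b - 1) * (b : ℝ) ^ i) ^ 2 ≤
      1 + ∑ j ∈ Ico 1 M, nn (θ * ((b : ℝ) * b - 1) * (b : ℝ) ^ j) ^ 2 := by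
    rw [filter_true_of_mem fun _ _ => trivial]
    rcases Nat.eq_zero_or_pos M with h0 | h0
    · rw [h0]
      simp
    · rw [range_eq_Ico, ← sum_Ico_consecutive _ (Nat.zero_le 1) h0]
      have : ∑ j ∈ Ico 0 1, nn (θ * ((b : ℝ) * b - 1) * (b : ℝ) ^ j) ^ 2 ≤ 1 := by
        rw [show Ico 0 1 = {0} from rfl, sum_singleton]
        have h8 := nn_le_half (θ * ((b : ℝ) * b - 1) * (b : ℝ) ^ 0)
        have h9 := nn_nonneg (θ * ((b : ℝ) * b - 1) * (b : ℝ) ^ 0)
        nlinarith
      linarith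
  have h8 : ∑ j ∈ Ico 1 M, nn (θ * ((b : ℝ) * b - 1) * (b : ℝ) ^ j) ^ 2 ≤
      (1 + (b : ℝ) ^ 2) * (2 * ∑ i ∈ range (c - 1), A i) := by
    refine (sum_le_sum h3).trans ?_
    rw [← mul_sum, sum_add_distrib]
    apply mul_le_mul_of_nonneg_left _ (by positivity)
    linarith
  rw [← hc₁] at h6
  rw [div_lt_iff₀ hc₁0] at hN
  have h9 : -Real.log ε * b / 4 * (2 * (1 + (b : ℝ) ^ 2)) ≤
      (1 + (b : ℝ) ^ 2) * (2 * ∑ i ∈ range (c - 1), A i) := by linarith
  have h10 : -Real.log ε * b / 4 ≤ ∑ i ∈ range (c - 1), A i := by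
    have : (0 : ℝ) < 2 * (1 + (b : ℝ) ^ 2) := by positivity
    nlinarith
  have h11 : -Real.log ε ≤ 4 / b * ∑ i ∈ range (c - 1), A i := by
    have : -Real.log ε = 4 / b * (-Real.log ε * b / 4) := by field_simp
    rw [this]
    exact mul_le_mul_of_nonneg_left h10 (by positivity)
  rw [← Real.exp_log hε]
  apply Real.exp_le_exp.2
  rw [hA] at h11
  linarith

end Pool.Agent.L5helper14.RDM
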