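import Pool.Agent.L5helper14.RDM.Nn

/-!
# Exponential sums over the integers with prescribed sets of digits (helper file)

Owner helper14.
-/

set_option autoImplicit false

namespace Pool.Agent.L5helper14.RDM

open Finset Filter
open Pool.Agent.H469R2.NK (e norm_e e_add)

/-- The digit number `i` (counted from the right, beginning with `0`) of `m` in base `b`. -/
def digit (b i m : ℕ) : ℕ := m / b ^ i % b

/-- The natural numbers `m < b ^ K` whose digit number `i` is in `D i`, for all `i < K`. -/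
def numbers (b K : ℕ) (D : ℕ → Finset ℕ) : Finset ℕ :=
  (range (b ^ K)).filter fun m => ∀ i < K, digit b i m ∈ D i

lemma digit_mod {b i K m : ℕ} (hi : i < K) : digit b i (m % b ^ K) = digit b i m := by
  unfold digit
  obtain ⟨k, rfl⟩ : ∃ k, K = i + (k + 1) := ⟨K - i - 1, by omega⟩
  rw [pow_add, Nat.mod_mul_right_div_self, Nat.mod_mod_of_dvd]
  exact dvd_pow_self b (by omega)

lemma digit_top {b K m : ℕ} (hm : m < b ^ (K + 1)) : digit b K m = m / b ^ K := by
  unfold digit
  apply Nat.mod_eq_of_lt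
  rw [pow_succ, mul_comm] at hm
  exact Nat.div_lt_of_lt_mul (by rwa [mul_comm] at hm)

/-- **Factorization.** -/
theorem sum_numbers {b : ℕ} (hb : 1 ≤ b) {D : ℕ → Finset ℕ} (F : ℕ → ℕ → ℂ) :
    ∀ K : ℕ, (∀ i < K, D i ⊆ range b) → ∑ m ∈ numbers b K D, ∏ i ∈ range K, F i (digit b i m) =
      ∏ i ∈ range K, ∑ d ∈ D i, F i d := by
  intro K
  induction K with
  | zero =>
    intro _
    have : numbers b 0 D = {0} := by
      ext m
      simp [numbers]
    rw [this]
    simp
  | succ K ih =>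
    intro hD
    rw [prod_range_succ, ← ih fun i hi => hD i (by omega), mul_comm, sum_mul_sum, ← sum_product']
    have hbK : 0 < b ^ K := pow_pos (by omega) K
    refine sum_nbij' (fun m => (m / b ^ K, m % b ^ K)) (fun z => z.1 * b ^ K + z.2) ?_ ?_ ?_ ?_ ?_
    · intro m hm
      obtain ⟨h1, h2⟩ := mem_filter.1 hm
      have h1' := mem_range.1 h1
      rw [mem_product]
      refine ⟨?_, mem_filter.2 ⟨mem_range.2 (Nat.mod_lt _ hbK), fun i hi => ?_⟩⟩
      · have := h2 K (by omega)
        rwa [digit_top h1'] at this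
      · show digit b i (m % b ^ K) ∈ D i
        rw [digit_mod hi]
        exact h2 i (by omega)
    · rintro ⟨d, m⟩ hz
      obtain ⟨h1, h2⟩ := mem_product.1 hz
      simp only at h1 h2
      obtain ⟨h3, h4⟩ := mem_filter.1 h2
      have h3' := mem_range.1 h3
      have hd : d < b := mem_range.1 (hD K (by omega) h1)
      have hlt : d * b ^ K + m < b ^ (K + 1) := by
        rw [pow_succ]
        calc d * b ^ K + m < d * b ^ K + b ^ K := by omega
          _ = (d + 1) * b ^ K := by ring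
          _ ≤ b * b ^ K := Nat.mul_le_mul_right _ hd
          _ = b ^ K * b := by ring
      refine mem_filter.2 ⟨mem_range.2 hlt, fun i hi => ?_⟩
      have hmod : (d * b ^ K + m) % b ^ K = m := by
        rw [add_comm, Nat.add_mul_mod_self_right, Nat.mod_eq_of_lt h3']
      have hdiv : (d * b ^ K + m) / b ^ K = d := by
        rw [add_comm, Nat.add_mul_div_right _ _ hbK, Nat.div_eq_of_lt h3', zero_add]
      rcases Nat.lt_succ_iff_lt_or_eq.1 hi with h | h
      · rw [← digit_mod h, hmod]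
        exact h4 i h
      · rw [h, digit_top hlt, hdiv]
        exact h1
    · intro m _
      simp only
      exact Nat.div_add_mod' m (b ^ K)
    · rintro ⟨d, m⟩ hz
      obtain ⟨h1, h2⟩ := mem_product.1 hz
      simp only at h1 h2
      have h3' := mem_range.1 (mem_filter.1 h2).1
      have hmod : (d * b ^ K + m) % b ^ K = m := by
        rw [add_comm, Nat.add_mul_mod_self_right, Nat.mod_eq_of_lt h3']
      have hdiv : (d * b ^ K + m) / b ^ K = d := by
        rw [add_comm, Nat.add_mul_div_right _ _ hbK, Nat.div_eq_of_lt h3', zero_add]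
      simp only [hmod, hdiv]
    · intro m hm
      obtain ⟨h1, h2⟩ := mem_filter.1 hm
      have h1' := mem_range.1 h1
      simp only
      rw [prod_range_succ, digit_top h1', mul_comm]
      congr 1
      refine prod_congr rfl fun i hi => ?_
      rw [digit_mod (mem_range.1 hi)]

theorem card_numbers {b : ℕ} (hb : 1 ≤ b) {D : ℕ → Finset ℕ} (K : ℕ) (hD : ∀ i < K, D i ⊆ range b) :
    (numbers b K D).card = ∏ i ∈ range K, (D i).card := by
  have h := sum_numbers hb (D := D) (fun _ _ => (1 : ℂ)) K hD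
  simp only [prod_const_one, sum_const, nsmul_eq_mul, mul_one] at h
  exact_mod_cast h

lemma sum_digits (b m : ℕ) : ∀ K : ℕ, ∑ i ∈ range K, digit b i m * b ^ i = m % b ^ K := by
  intro K
  induction K with
  | zero => simp [Nat.mod_one]
  | succ K ih =>
    rw [sum_range_succ, ih, Nat.mod_pow_succ]
    unfold digit
    ring

lemma e_sum (s : Finset ℕ) (f : ℕ → ℝ) : e (∑ i ∈ s, f i) = ∏ i ∈ s, e (f i) := by
  classical
  induction s using Finset.induction_on with
  | empty => simp [e]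
  | insert a s ha ih => rw [sum_insert ha, prod_insert ha, e_add, ih]

/-- The product bound. -/
theorem prod_bound {b : ℕ} (hb : 2 ≤ b) {D : ℕ → Finset ℕ} (K : ℕ)
    (hD : ∀ i < K, (D i).Nonempty ∧ D i ⊆ range b) (φ : ℕ → ℕ → ℝ) (w : ℕ → ℝ) (T : Finset ℕ)
    (hT : T ⊆ range K) (hw : ∀ i ∈ T, ∃ x ∈ D i, ∃ y ∈ D i, x ≠ y ∧ w i ≤ nn (φ i x - φ i y) ^ 2) :
    ‖∏ i ∈ range K, ∑ d ∈ D i, e (φ i d)‖ ≤
      Real.exp (-(4 / b * ∑ i ∈ T, w i)) * ∏ i ∈ range K, ((D i).card : ℝ) := by
  classical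
  have hb0 : (0 : ℝ) < b := by exact_mod_cast (by omega : 0 < b)
  have h1 : ∀ i ∈ range K, ‖∑ d ∈ D i, e (φ i d)‖ ≤
      Real.exp (-(4 / b * (if i ∈ T then w i else 0))) * ((D i).card : ℝ) := by
    intro i hi
    obtain ⟨hne, hsub⟩ := hD i (mem_range.1 hi)
    have hc0 : (0 : ℝ) < (D i).card := by exact_mod_cast hne.card_pos
    split_ifs with hiT
    · obtain ⟨x, hx, y, hy, hxy, hle⟩ := hw i hiT
      have h2 := set_bound hx hy hxy (φ i)
      have hcb : ((D i).card : ℝ) ≤ b := by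
        have := card_le_card hsub
        rw [card_range] at this
        exact_mod_cast this
      refine h2.trans ?_
      have h3 := Real.add_one_le_exp (-(4 / b * w i))
      have h4 : ((D i).card : ℝ) - 4 * nn (φ i x - φ i y) ^ 2 ≤
          (-(4 / b * w i) + 1) * (D i).card := by
        have hn := sq_nonneg (nn (φ i x - φ i y))
        have h5 : 4 / b * w i * (D i).card ≤ 4 / b * nn (φ i x - φ i y) ^ 2 * (D i).card := by
          have : (0 : ℝ) < 4 / b := by positivity
          gcongr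
        have h6 : 4 / b * nn (φ i x - φ i y) ^ 2 * (D i).card ≤ 4 * nn (φ i x - φ i y) ^ 2 := by
          rw [div_mul_eq_mul_div, div_mul_eq_mul_div, div_le_iff₀ hb0]
          gcongr
        linarith
      refine h4.trans (mul_le_mul_of_nonneg_right h3 hc0.le)
    · rw [mul_zero, neg_zero, Real.exp_zero, one_mul]
      refine (norm_sum_le _ _).trans ?_
      simp [norm_e]
  rw [norm_prod]
  refine (prod_le_prod (fun _ _ => norm_nonneg _) h1).trans ?_
  rw [prod_mul_distrib]
  refine mul_le_mul_of_nonneg_right (le_of_eq ?_) (prod_nonneg fun _ _ => Nat.cast_nonneg _)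
  rw [← Real.exp_sum]
  congr 1
  rw [sum_neg_distrib, ← mul_sum, ← sum_filter]
  congr 3
  ext i
  rw [mem_filter]
  exact ⟨fun h => h.2, fun h => ⟨hT h, h⟩⟩

/-- **Exponential sums over the integers with prescribed sets of digits**: uniform in the sets. -/
theorem digits_small {b g : ℕ} (hb : 2 ≤ b) (hg : 1 ≤ g) {θ : ℝ} (hθ : Irrational θ) {ε : ℝ}
    (hε : 0 < ε) : ∃ K₀ : ℕ, ∀ K, K₀ ≤ K → ∀ D : ℕ → Finset ℕ,
      (∀ i < K, (D i).Nonempty ∧ D i ⊆ range b) → Syn g K (fun i => 2 ≤ (D i).card) →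
      ‖∑ m ∈ numbers b K D, e (θ * m)‖ ≤ ε * (numbers b K D).card := by
  classical
  have hb0 : (0 : ℝ) < b := by exact_mod_cast (by omega : 0 < b)
  obtain ⟨L, hL⟩ : ∃ L : ℕ, L = Nat.factorial b := ⟨_, rfl⟩
  have hL0 : 0 < L := by rw [hL]; exact Nat.factorial_pos b
  have hLr : (0 : ℝ) < L := by exact_mod_cast hL0
  have hθL : Irrational (θ * L) := hθ.mul_natCast hL0.ne'
  obtain ⟨c, hc⟩ : ∃ c : ℝ, c = 4 / b * ((1 / (2 * (b : ℝ) ^ g)) ^ 2 / (L : ℝ) ^ 2) := ⟨_, rfl⟩
  have hc0 : 0 < c := by rw [hc]; positivity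
  obtain ⟨n, hn⟩ : ∃ n : ℕ, Real.exp (-(c * n)) ≤ ε := by
    obtain ⟨n, hn⟩ := exists_nat_gt (-Real.log ε / c)
    refine ⟨n, ?_⟩
    rw [div_lt_iff₀ hc0] at hn
    rw [← Real.exp_log hε]
    apply Real.exp_le_exp.2
    linarith
  obtain ⟨M, hM⟩ := many_large hb hg hθL n
  refine ⟨M, fun K hK D hD hF => ?_⟩
  have hfac : ∑ m ∈ numbers b K D, e (θ * m) =
      ∏ i ∈ range K, ∑ d ∈ D i, e (θ * (d * (b : ℝ) ^ i)) := by
    rw [← sum_numbers (by omega) (fun i d => e (θ * (d * (b : ℝ) ^ i))) K fun i hi => (hD i hi).2]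
    refine sum_congr rfl fun m hm => ?_
    rw [← e_sum, ← mul_sum]
    congr 2
    have h1 := sum_digits b m K
    rw [Nat.mod_eq_of_lt (mem_range.1 (mem_filter.1 hm).1)] at h1
    conv_lhs => rw [← h1]
    push_cast
    rfl
  have hcard : ((numbers b K D).card : ℝ) = ∏ i ∈ range K, ((D i).card : ℝ) := by
    rw [card_numbers (by omega) K fun i hi => (hD i hi).2]
    push_cast
    rfl
  rw [hfac, hcard]
  have hT : (range M).filter (fun i => 2 ≤ (D i).card) ⊆ range K := by
    intro i hi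
    have := mem_range.1 (mem_filter.1 hi).1
    exact mem_range.2 (by omega)
  have h2 := prod_bound hb K hD (fun i d => θ * (d * (b : ℝ) ^ i))
    (fun i => nn (θ * L * (b : ℝ) ^ i) ^ 2 / (L : ℝ) ^ 2) _ hT (by
      intro i hi
      have h3 : 2 ≤ (D i).card := (mem_filter.1 hi).2
      obtain ⟨x, hx, y, hy, hxy⟩ := one_lt_card.1 (show 1 < (D i).card by omega)
      refine ⟨x, hx, y, hy, hxy, ?_⟩
      have hiK := mem_range.1 (hT hi)
      have hxb : x < b := mem_range.1 ((hD i hiK).2 hx)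
      have hyb : y < b := mem_range.1 ((hD i hiK).2 hy)
      have hne : ((x : ℤ) - y) ≠ 0 := sub_ne_zero.2 (by exact_mod_cast hxy)
      have hdvd : ((x : ℤ) - y) ∣ (L : ℤ) := by
        rw [hL, ← Int.natAbs_dvd_natAbs, Int.natAbs_natCast]
        exact Nat.dvd_factorial (Int.natAbs_pos.2 hne) (by omega)
      obtain ⟨k, hk⟩ := hdvd
      have h4 : θ * L * (b : ℝ) ^ i =
          (k : ℝ) * (θ * (x * (b : ℝ) ^ i) - θ * (y * (b : ℝ) ^ i)) := by
        have h5 : (L : ℝ) = ((x : ℝ) - y) * k := by exact_mod_cast hk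
        rw [h5]
        ring
      have h6 := nn_int_mul k (θ * (x * (b : ℝ) ^ i) - θ * (y * (b : ℝ) ^ i))
      rw [← h4] at h6
      have hkL : |(k : ℝ)| ≤ L := by
        have h7 : |k| ≤ (L : ℤ) := by
          have h8 : k ∣ (L : ℤ) := ⟨(x : ℤ) - y, by rw [hk, mul_comm]⟩
          exact (Int.le_of_dvd (by exact_mod_cast hL0) ((abs_dvd _ _).2 h8))
        exact_mod_cast h7
      have h9 : nn (θ * L * (b : ℝ) ^ i) ≤
          L * nn (θ * (x * (b : ℝ) ^ i) - θ * (y * (b : ℝ) ^ i)) :=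
        h6.trans (mul_le_mul_of_nonneg_right hkL (nn_nonneg _))
      rw [div_le_iff₀ (by positivity)]
      have h10 := pow_le_pow_left₀ (nn_nonneg _) h9 2
      rw [mul_pow] at h10
      linarith)
  refine h2.trans (mul_le_mul_of_nonneg_right ?_ (prod_nonneg fun _ _ => Nat.cast_nonneg _))
  refine le_trans (Real.exp_le_exp.2 ?_) hn
  apply neg_le_neg
  have h11 := hM K hK (fun i => 2 ≤ (D i).card) hF
  rw [← sum_div, hc]
  have h12 : (0 : ℝ) < 4 / b := by positivity
  calc 4 / b * ((1 / (2 * (b : ℝ) ^ g)) ^ 2 / (L : ℝ) ^ 2) * n =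
        4 / b * ((n * (1 / (2 * (b : ℝ) ^ g)) ^ 2) / (L : ℝ) ^ 2) := by ring
    _ ≤ _ := by gcongr

end Pool.Agent.L5helper14.RDM
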