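import Pool.Agent.N141.SG.Seq7
import Pool.Agent.L5helper14.RDM.Dig

/-!
# Families of finite sets of multiplicities with small exponential sums (helper file)

Owner helper14. After `Pool.Agent.N141.SG` (helper141).
-/

set_option autoImplicit false

namespace Pool.Agent.L5helper14.RDM

open Finset Filter
open Pool.Agent.H469R2.NK (e norm_e e_add)
open Pool.Agent.N141.SG (SmallTo AlgSmall Tgt Ex badU tgt_of_freq one_seq rad)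

/-- The exponential sums over the members of the families `𝒮 K` of finite sets are uniformly small at all
irrational algebraic frequencies, `K → ∞`. -/
def USmall (𝒮 : ℕ → Set (Finset ℕ)) (v : ℕ → ℕ) : Prop :=
  ∀ θ : ℝ, Irrational θ → IsAlgebraic ℤ θ → ∀ ε : ℝ, 0 < ε → ∃ K₀ : ℕ, ∀ K, K₀ ≤ K →
    ∀ s ∈ 𝒮 K, ‖∑ t ∈ s, e (θ * v t)‖ ≤ ε * s.card

lemma USmall.algSmall {𝒮 : ℕ → Set (Finset ℕ)} {v : ℕ → ℕ} (h : USmall 𝒮 v) {κ : ℕ → ℕ}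
    (hκ : ∀ j, j ≤ κ j) {s : ℕ → Finset ℕ} (hs : ∀ j, s j ∈ 𝒮 (κ j)) :
    AlgSmall s (fun t => (v t : ℤ)) := by
  intro θ hθ ha ε hε
  obtain ⟨K₀, hK₀⟩ := h θ hθ ha ε hε
  filter_upwards [eventually_ge_atTop K₀] with j hj
  have h1 := hK₀ (κ j) (hj.trans (hκ j)) (s j) (hs j)
  simpa using h1

lemma not_tgt_zero : ¬ Tgt (0 : ℤ) := by
  intro h
  obtain ⟨z, h1, h2⟩ := h 1 (by decide)
  have hr : (rad 1 : ℝ) = 2 := by
    have : rad 1 = 2 := rfl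
    rw [this]
    norm_num
  have hc : (Pool.Agent.N141.SG.cell 1 : ℝ) = 350 := by
    norm_num [Pool.Agent.N141.SG.cell]
  rw [hr, hc] at h1 h2
  have h3 : (1.41 : ℝ) < √2 := by
    apply Real.lt_sqrt_of_sq_lt
    norm_num
  have h4 : √2 < (1.42 : ℝ) := by
    rw [Real.sqrt_lt' (by norm_num)]
    norm_num
  simp only [Int.cast_zero, mul_zero, zero_add] at h1 h2
  have h5 : (0 : ℝ) < z := by linarith
  have h6 : (z : ℝ) < 1 := by linarith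
  have h7 : (0 : ℤ) < z := by exact_mod_cast h5
  have h8 : z < 1 := by exact_mod_cast h6
  omega

/-- **all the radicands at once** -/
theorem uniform_tgt {𝒮 : ℕ → Set (Finset ℕ)} {v : ℕ → ℕ} (h : USmall 𝒮 v) :
    ∃ K₀ : ℕ, ∀ K, K₀ ≤ K → ∀ s ∈ 𝒮 K, 1 / 10000 ^ 22 * (s.card : ℝ) ≤
      ({t : ℕ | t ∈ s ∧ 1 ≤ v t ∧ Tgt (v t : ℕ)}.ncard : ℝ) := by
  by_contra hcon
  push Not at hcon
  choose κ hκ s hs hlt using hcon
  have h1 := tgt_of_freq (s := s) (v := fun t => (v t : ℤ))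
    (fun θ hθ => h.algSmall hκ hs θ hθ.1 hθ.2.isAlgebraic)
  obtain ⟨j, hj⟩ := h1.exists
  have h2 := hlt j
  have h3 : {t : ℕ | t ∈ s j ∧ Tgt (v t : ℤ)} ⊆ {t : ℕ | t ∈ s j ∧ 1 ≤ v t ∧ Tgt (v t : ℕ)} := by
    rintro t ⟨ht, ht'⟩
    refine ⟨ht, ?_, ht'⟩
    by_contra h0
    have h4 : v t = 0 := by omega
    rw [h4] at ht'
    exact not_tgt_zero ht'
  have h4 := Set.ncard_le_ncard h3 ((Finset.finite_toSet (s j)).subset fun n hn => hn.1)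
  have h5 : ({t : ℕ | t ∈ s j ∧ Tgt (v t : ℤ)}.ncard : ℝ) ≤
      ({t : ℕ | t ∈ s j ∧ 1 ≤ v t ∧ Tgt (v t : ℕ)}.ncard : ℝ) := by exact_mod_cast h4
  linarith

/-- **one number of points** -/
theorem uniform_one {𝒮 : ℕ → Set (Finset ℕ)} {v : ℕ → ℕ} (h : USmall 𝒮 v) {n : ℕ} (hn : 10 ≤ n)
    {δ : ℝ} (hδ : 0 < δ) :
    ∃ K₀ : ℕ, ∀ K, K₀ ≤ K → ∀ s ∈ 𝒮 K,
      ({t : ℕ | t ∈ s ∧ 1 ≤ v t ∧ ¬ Ex n (v t)}.ncard : ℝ) ≤ (badU n + δ) * (s.card : ℝ) := by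
  by_contra hcon
  push Not at hcon
  choose κ hκ s hs hlt using hcon
  have h1 := one_seq hn (h.algSmall hκ hs) hδ
  obtain ⟨j, hj⟩ := h1.exists
  have h2 := hlt j
  have h3 : {t : ℕ | t ∈ s j ∧ 1 ≤ v t ∧ ¬ Ex n (v t)} ⊆
      {t : ℕ | t ∈ s j ∧ ∃ m : ℕ, 1 ≤ m ∧ (m : ℤ) = (v t : ℤ) ∧ ¬ Ex n m} := by
    rintro t ⟨ht, h4, h5⟩
    exact ⟨ht, v t, h4, rfl, h5⟩
  have h4 := Set.ncard_le_ncard h3 ((Finset.finite_toSet (s j)).subset fun n hn => hn.1)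
  have h5 : ({t : ℕ | t ∈ s j ∧ 1 ≤ v t ∧ ¬ Ex n (v t)}.ncard : ℝ) ≤
      ({t : ℕ | t ∈ s j ∧ ∃ m : ℕ, 1 ≤ m ∧ (m : ℤ) = (v t : ℤ) ∧ ¬ Ex n m}.ncard : ℝ) := by
    exact_mod_cast h4
  linarith

/-- the sets of numbers with prescribed sets of digits -/
theorem usmall_digits {b g : ℕ} (hb : 2 ≤ b) (hg : 1 ≤ g) :
    USmall (fun K => {s | ∃ D : ℕ → Finset ℕ, (∀ i < K, (D i).Nonempty ∧ D i ⊆ range b) ∧
      Syn g K (fun i => 2 ≤ (D i).card) ∧ s = numbers b K D}) (fun t => t) := by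
  intro θ hθ _ ε hε
  obtain ⟨K₀, hK₀⟩ := digits_small hb hg hθ hε
  refine ⟨K₀, fun K hK s hs => ?_⟩
  obtain ⟨D, hD, hF, rfl⟩ := hs
  exact hK₀ K hK D hD hF

end Pool.Agent.L5helper14.RDM
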