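import Pool.Agent.N141.SG.Seq3
import Pool.Agent.L5helper14.RDM.Fam

/-!
# Exponential sums over products of members of arbitrary sets at algebraic frequencies (helper file)

Owner helper14.
-/

set_option autoImplicit false

namespace Pool.Agent.L5helper14.RDM

open Finset Filter
open Pool.Agent.H469R2.NK (e norm_e e_add conj_e)

lemma norm_e_sub_one (t : ℝ) : 4 * nn t ≤ ‖e t - 1‖ := by
  have hn := nn_nonneg t
  refine abs_le_of_sq_le_sq' ?_ (norm_nonneg _) |>.2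
  have h1 : ‖e t - 1‖ ^ 2 = 2 - 2 * Real.cos (2 * Real.pi * t) := by
    have h2 : e t = ((Real.cos (2 * Real.pi * t) : ℝ) : ℂ) +
        ((Real.sin (2 * Real.pi * t) : ℝ) : ℂ) * Complex.I := by
      unfold e
      rw [Complex.exp_mul_I, Complex.ofReal_cos, Complex.ofReal_sin]
    rw [← Complex.normSq_eq_norm_sq, h2]
    have h3 : (((Real.cos (2 * Real.pi * t) : ℝ) : ℂ) +
        ((Real.sin (2 * Real.pi * t) : ℝ) : ℂ) * Complex.I) - 1 =
        ((Real.cos (2 * Real.pi * t) - 1 : ℝ) : ℂ) +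
        ((Real.sin (2 * Real.pi * t) : ℝ) : ℂ) * Complex.I := by
      push_cast
      ring
    rw [h3, Complex.normSq_add_mul_I]
    have := Real.sin_sq_add_cos_sq (2 * Real.pi * t)
    nlinarith
  have h2 : Real.cos (2 * Real.pi * t) ≤ 1 - 8 * nn t ^ 2 := by
    have h3 : Real.cos (2 * Real.pi * t) = Real.cos (2 * Real.pi * (t - round t)) := by
      have : 2 * Real.pi * (t - round t) = 2 * Real.pi * t - (round t : ℤ) * (2 * Real.pi) := by
        ring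
      rw [this, Real.cos_sub_int_mul_two_pi]
    have h4 : |2 * Real.pi * (t - round t)| ≤ Real.pi := by
      rw [abs_mul, abs_of_pos (by positivity : (0 : ℝ) < 2 * Real.pi)]
      have := nn_le_half t
      unfold nn at this
      have hpi := Real.pi_pos
      nlinarith
    have h5 := Real.cos_le_one_sub_mul_cos_sq h4
    rw [h3]
    refine h5.trans (le_of_eq ?_)
    have h6 : (2 * Real.pi * (t - round t)) ^ 2 = 4 * Real.pi ^ 2 * nn t ^ 2 := by
      unfold nn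
      rw [sq_abs]
      ring
    rw [h6]
    have hpi := Real.pi_ne_zero
    field_simp
    ring
  rw [h1]
  nlinarith

/-- Geometric sums. -/
lemma geo_bound {t κ : ℝ} (hκ : 0 < κ) (ht : κ ≤ nn t) (X : ℕ) :
    ‖∑ u ∈ Icc 1 X, e (t * u)‖ ≤ 1 / (2 * κ) := by
  have hne : ∀ k : ℤ, t ≠ k := by
    intro k hk
    have : nn t = 0 := by
      rw [hk]
      unfold nn
      simp
    linarith
  have h1 : ∑ u ∈ Icc 1 X, e (t * u) = ∑ i ∈ range X, e (t + t * i) := by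
    refine sum_nbij' (fun u => u - 1) (fun i => i + 1) ?_ ?_ ?_ ?_ ?_
    · intro u hu
      have := mem_Icc.1 hu
      exact mem_range.2 (by omega)
    · intro i hi
      have := mem_range.1 hi
      exact mem_Icc.2 (by omega)
    · intro u hu
      have := mem_Icc.1 hu
      show u - 1 + 1 = u
      omega
    · intro i _
      show i + 1 - 1 = i
      omega
    · intro u hu
      have h2 := mem_Icc.1 hu
      have h3 : ((u - 1 : ℕ) : ℝ) = (u : ℝ) - 1 := by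
        push_cast [Nat.cast_sub h2.1]
        ring
      show e (t * u) = e (t + t * ((u - 1 : ℕ) : ℝ))
      rw [h3]
      congr 1
      ring
  rw [h1]
  refine (Pool.Agent.N141.SG.geo_le hne t X).trans ?_
  have h2 := norm_e_sub_one t
  have h3 : 4 * κ ≤ ‖e t - 1‖ := by linarith
  calc 2 / ‖e t - 1‖ ≤ 2 / (4 * κ) := by gcongr
    _ = 1 / (2 * κ) := by field_simp; norm_num

/-- Sets with gaps. -/
lemma spaced_card {Y Q : ℕ} {B : Finset ℕ} (hB : B ⊆ Icc 1 Y)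
    (h : ∀ x ∈ B, ∀ y ∈ B, x < y → Q < y - x) : (B.card : ℝ) ≤ (Y : ℝ) / (Q + 1) + 1 := by
  have h1 : B.card ≤ (range (Y / (Q + 1) + 1)).card := by
    refine card_le_card_of_injOn (fun x => x / (Q + 1)) ?_ ?_
    · intro x hx
      have := mem_Icc.1 (hB hx)
      rw [coe_range, Set.mem_Iio]
      have := Nat.div_le_div_right (c := Q + 1) this.2
      show x / (Q + 1) < Y / (Q + 1) + 1
      omega
    · intro x hx y hy hxy
      simp only at hxy
      have key : ∀ x ∈ B, ∀ y ∈ B, x / (Q + 1) = y / (Q + 1) → ¬ x < y := by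
        intro x hx y hy hxy hlt
        have h2 := h x hx y hy hlt
        have h3 := Nat.div_add_mod x (Q + 1)
        have h4 := Nat.div_add_mod y (Q + 1)
        have h5 := Nat.mod_lt x (Nat.succ_pos Q)
        have h6 := Nat.mod_lt y (Nat.succ_pos Q)
        rw [hxy] at h3
        simp only [Nat.succ_eq_add_one] at h5 h6
        omega
      rcases lt_trichotomy x y with h2 | h2 | h2
      · exact absurd h2 (key x hx y hy hxy)
      · exact h2
      · exact absurd h2 (key y hy x hx hxy.symm)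
  rw [card_range] at h1
  have h2 : (B.card : ℝ) ≤ ((Y / (Q + 1) : ℕ) : ℝ) + 1 := by exact_mod_cast h1
  have h3 : ((Y / (Q + 1) : ℕ) : ℝ) ≤ (Y : ℝ) / ((Q + 1 : ℕ) : ℝ) := Nat.cast_div_le
  push_cast at h3
  linarith

/-- The bilinear inequality. -/
theorem bilinear_le (θ : ℝ) {X Y Q : ℕ} {κ : ℝ} (hκ : 0 < κ)
    (hQ : ∀ k : ℤ, k ≠ 0 → |k| ≤ Q → 2 * κ ≤ nn (k * θ)) {U V : Finset ℕ} (hU : U ⊆ Icc 1 X)
    (hV : V ⊆ Icc 1 Y) :
    ‖∑ u ∈ U, ∑ v ∈ V, e (θ * (u * v))‖ ^ 2 ≤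
      U.card * V.card * (X * (Y / (Q + 1) + 1) + Y / (2 * κ)) := by
  classical
  have hVY : (V.card : ℝ) ≤ Y := by
    have := card_le_card hV
    rw [Nat.card_Icc] at this
    have h2 : V.card ≤ Y := by omega
    exact_mod_cast h2
  -- the rows
  have hrow : ∀ v ∈ V, ∑ v' ∈ V, ‖∑ u ∈ Icc 1 X, e ((θ * ((v : ℝ) - v')) * u)‖ ≤
      X * (Y / (Q + 1) + 1) + Y / (2 * κ) := by
    intro v _
    have h1 : ∀ v' ∈ V, ‖∑ u ∈ Icc 1 X, e ((θ * ((v : ℝ) - v')) * u)‖ ≤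
        (if nn (θ * ((v : ℝ) - v')) < κ then (X : ℝ) else 0) + 1 / (2 * κ) := by
      intro v' _
      split_ifs with h
      · have h2 : ‖∑ u ∈ Icc 1 X, e ((θ * ((v : ℝ) - v')) * u)‖ ≤ X := by
          refine (norm_sum_le _ _).trans ?_
          simp [norm_e]
        have : 0 < 1 / (2 * κ) := by positivity
        linarith
      · rw [zero_add]
        exact geo_bound hκ (not_lt.1 h) X
    refine (sum_le_sum h1).trans ?_
    rw [sum_add_distrib, sum_const, nsmul_eq_mul, ← sum_filter, sum_const, nsmul_eq_mul]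
    have h2 : ((V.filter fun v' : ℕ => nn (θ * ((v : ℝ) - v')) < κ).card : ℝ) ≤
        (Y : ℝ) / (Q + 1) + 1 := by
      refine spaced_card ((filter_subset _ _).trans hV) ?_
      intro x hx y hy hxy
      by_contra hle
      have hx2 := (mem_filter.1 hx).2
      have hy2 := (mem_filter.1 hy).2
      have h3 := hQ ((y : ℤ) - x) (by omega) (by
        rw [abs_of_pos (by omega)]
        omega)
      have h4 : (((y : ℤ) - x : ℤ) : ℝ) * θ = θ * ((v : ℝ) - x) + -(θ * ((v : ℝ) - y)) := by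
        push_cast
        ring
      rw [h4] at h3
      have h5 := nn_add (θ * ((v : ℝ) - x)) (-(θ * ((v : ℝ) - y)))
      rw [nn_neg] at h5
      linarith
    have h3 : (V.card : ℝ) * (1 / (2 * κ)) ≤ Y / (2 * κ) := by
      rw [mul_one_div]
      gcongr
    have h4 : (((V.filter fun v' : ℕ => nn (θ * ((v : ℝ) - v')) < κ).card : ℝ)) * X ≤
        X * (Y / (Q + 1) + 1) := by
      rw [mul_comm]
      gcongr
    linarith
  -- the second moment
  have hmom : ∑ u ∈ Icc 1 X, ‖∑ v ∈ V, e (θ * (u * v))‖ ^ 2 ≤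
      V.card * (X * (Y / (Q + 1) + 1) + Y / (2 * κ)) := by
    have h1 : ((∑ u ∈ Icc 1 X, ‖∑ v ∈ V, e (θ * (u * v))‖ ^ 2 : ℝ) : ℂ) =
        ∑ v ∈ V, ∑ v' ∈ V, ∑ u ∈ Icc 1 X, e ((θ * ((v : ℝ) - v')) * u) := by
      push_cast
      have h2 : ∀ u ∈ Icc 1 X, ((‖∑ v ∈ V, e (θ * (u * v))‖ : ℂ)) ^ 2 =
          ∑ v ∈ V, ∑ v' ∈ V, e ((θ * ((v : ℝ) - v')) * u) := by
        intro u _
        rw [← Complex.mul_conj', map_sum, sum_mul_sum]
        refine sum_congr rfl fun v _ => sum_congr rfl fun v' _ => ?_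
        rw [conj_e, ← e_add]
        congr 1
        ring
      rw [sum_congr rfl h2, sum_comm]
      refine sum_congr rfl fun v _ => ?_
      rw [sum_comm]
    have h3 : (∑ u ∈ Icc 1 X, ‖∑ v ∈ V, e (θ * (u * v))‖ ^ 2 : ℝ) ≤
        ‖((∑ u ∈ Icc 1 X, ‖∑ v ∈ V, e (θ * (u * v))‖ ^ 2 : ℝ) : ℂ)‖ := by
      rw [Complex.norm_real]
      exact le_abs_self _
    refine h3.trans ?_
    rw [h1]
    refine (norm_sum_le _ _).trans ?_
    refine (sum_le_sum fun v hv => (norm_sum_le _ _).trans (hrow v hv)).trans ?_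
    rw [sum_const, nsmul_eq_mul]
  have h1 : ‖∑ u ∈ U, ∑ v ∈ V, e (θ * (u * v))‖ ^ 2 ≤
      U.card * ∑ u ∈ U, ‖∑ v ∈ V, e (θ * (u * v))‖ ^ 2 := by
    refine (pow_le_pow_left₀ (norm_nonneg _) (norm_sum_le _ _) 2).trans ?_
    exact sq_sum_le_card_mul_sum_sq
  refine h1.trans ?_
  rw [mul_assoc]
  refine mul_le_mul_of_nonneg_left (le_trans ?_ hmom) (Nat.cast_nonneg _)
  exact sum_le_sum_of_subset_of_nonneg hU fun _ _ _ => sq_nonneg _

/-- **Sums over the products of members of two sets.** -/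
theorem bilinear_small {θ : ℝ} (hθ : Irrational θ) (ha : IsAlgebraic ℤ θ) {A : ℝ} (hA : 1 ≤ A) :
    ∃ c : ℝ, 0 < c ∧ ∀ ε : ℝ, 0 < ε → ε ≤ 1 → ∃ X₀ : ℕ, ∀ X Y : ℕ, X₀ ≤ X → X₀ ≤ Y →
      (X : ℝ) ≤ (Y : ℝ) ^ A → (Y : ℝ) ≤ (X : ℝ) ^ A → ∀ U V : Finset ℕ, U ⊆ Icc 1 X → V ⊆ Icc 1 Y →
      ((X : ℝ) * Y) ^ (1 - c) ≤ (U.card : ℝ) * V.card →
      ‖∑ u ∈ U, ∑ v ∈ V, e (θ * (u * v))‖ ≤ ε * (U.card * V.card) := by
  obtain ⟨τ, hτ, c₀, hc₀, hL⟩ := Pool.Agent.N141.SG.liouville hθ ha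
  obtain ⟨c, hc⟩ : ∃ c : ℝ, c = 1 / (2 * (1 + A) * (1 + τ)) := ⟨_, rfl⟩
  have hc0 : 0 < c := by rw [hc]; positivity
  refine ⟨c, hc0, fun ε hε hε1 => ?_⟩
  obtain ⟨a, hadef⟩ : ∃ a : ℝ, a = 3 / ε ^ 2 := ⟨_, rfl⟩
  have ha3 : 3 ≤ a := by
    rw [hadef, le_div_iff₀ (by positivity)]
    nlinarith
  have ha0 : 0 < a := by linarith
  obtain ⟨X₀, hX₀⟩ := exists_nat_ge (((a ^ (1 + τ) / c₀)) ^ 2 + a ^ 2 + 1)
  have hat0 : 0 < a ^ (1 + τ) / c₀ := by positivity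
  refine ⟨X₀, fun X Y hX hY hXY hYX U V hU hV hUV => ?_⟩
  have hXr : (X₀ : ℝ) ≤ X := by exact_mod_cast hX
  have hYr : (X₀ : ℝ) ≤ Y := by exact_mod_cast hY
  have hE2 := sq_nonneg (a ^ (1 + τ) / c₀)
  have ha2 := sq_nonneg a
  have hX1 : 1 ≤ (X : ℝ) := by linarith
  have hY1 : 1 ≤ (Y : ℝ) := by linarith
  have hX0 : (0 : ℝ) < X := by linarith
  have hY0 : (0 : ℝ) < Y := by linarith
  obtain ⟨W, hW⟩ : ∃ W : ℝ, W = ((X : ℝ) * Y) ^ c := ⟨_, rfl⟩
  have hXY0 : 0 < (X : ℝ) * Y := by positivity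
  have hW1 : 1 ≤ W := by
    rw [hW]
    exact Real.one_le_rpow (by nlinarith) hc0.le
  have hW0 : 0 < W := by linarith
  -- W is small
  have hWpow : ∀ Z : ℝ, 1 ≤ Z → (X : ℝ) * Y ≤ Z ^ (1 + A) → W ^ (1 + τ) ≤ Z ^ (1 / 2 : ℝ) := by
    intro Z hZ h
    rw [hW, ← Real.rpow_mul hXY0.le]
    calc ((X : ℝ) * Y) ^ (c * (1 + τ)) ≤ (Z ^ (1 + A)) ^ (c * (1 + τ)) :=
          Real.rpow_le_rpow hXY0.le h (by positivity)
      _ = Z ^ (1 / 2 : ℝ) := by
          rw [← Real.rpow_mul (by linarith)]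
          congr 1
          rw [hc]
          field_simp
  have hWX : W ^ (1 + τ) ≤ (X : ℝ) ^ (1 / 2 : ℝ) := by
    refine hWpow X hX1 ?_
    rw [Real.rpow_add hX0, Real.rpow_one]
    exact mul_le_mul_of_nonneg_left hYX hX0.le
  have hWY : W ^ (1 + τ) ≤ (Y : ℝ) ^ (1 / 2 : ℝ) := by
    refine hWpow Y hY1 ?_
    rw [Real.rpow_add hY0, Real.rpow_one, mul_comm]
    exact mul_le_mul_of_nonneg_left hXY hY0.le
  have hWW : W ≤ W ^ (1 + τ) := by
    conv_lhs => rw [← Real.rpow_one W]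
    exact Real.rpow_le_rpow_of_exponent_le hW1 (by linarith)
  have hsqX : (X : ℝ) ^ (1 / 2 : ℝ) * (X : ℝ) ^ (1 / 2 : ℝ) = X := by
    rw [← Real.rpow_add hX0]
    norm_num
  have hsqY : (Y : ℝ) ^ (1 / 2 : ℝ) * (Y : ℝ) ^ (1 / 2 : ℝ) = Y := by
    rw [← Real.rpow_add hY0]
    norm_num
  have hxh0 : 0 < (X : ℝ) ^ (1 / 2 : ℝ) := by positivity
  have hyh0 : 0 < (Y : ℝ) ^ (1 / 2 : ℝ) := by positivity
  have hbigX : a ^ (1 + τ) / c₀ ≤ (X : ℝ) ^ (1 / 2 : ℝ) := by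
    refine (abs_le_of_sq_le_sq' ?_ hxh0.le).2
    rw [sq ((X : ℝ) ^ (1 / 2 : ℝ)), hsqX]
    linarith
  have hbigY' : a ≤ (Y : ℝ) ^ (1 / 2 : ℝ) := by
    refine (abs_le_of_sq_le_sq' ?_ hyh0.le).2
    rw [sq ((Y : ℝ) ^ (1 / 2 : ℝ)), hsqY]
    linarith
  have hY3 : a * W ≤ Y := by
    rw [← hsqY]
    exact mul_le_mul hbigY' (hWW.trans hWY) hW0.le hyh0.le
  have hX3 : (a * W) ^ (1 + τ) / c₀ ≤ X := by
    rw [Real.mul_rpow ha0.le hW0.le, ← hsqX]
    calc a ^ (1 + τ) * W ^ (1 + τ) / c₀ = a ^ (1 + τ) / c₀ * W ^ (1 + τ) := by ring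
      _ ≤ _ := mul_le_mul hbigX hWX (by positivity) hxh0.le
  obtain ⟨Q, hQ⟩ : ∃ Q : ℕ, Q = ⌊a * W⌋₊ := ⟨_, rfl⟩
  have haW : 3 ≤ a * W := by nlinarith
  have hQ1 : 1 ≤ Q := by
    rw [hQ]
    exact Nat.one_le_floor_iff _ |>.2 (by linarith)
  have hQle : (Q : ℝ) ≤ a * W := by
    rw [hQ]
    exact Nat.floor_le (by positivity)
  have hQlt : a * W < Q + 1 := by
    rw [hQ]
    exact Nat.lt_floor_add_one _
  have hQ0 : (0 : ℝ) < Q := by exact_mod_cast hQ1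
  obtain ⟨κ, hκ⟩ : ∃ κ : ℝ, κ = c₀ * (Q : ℝ) ^ (-τ) / 2 := ⟨_, rfl⟩
  have hκ0 : 0 < κ := by rw [hκ]; positivity
  have hb := bilinear_le θ (X := X) (Y := Y) (Q := Q) hκ0 (by
    intro k hk hkQ
    have h1 := hL Q (fun _ => k) (by
      intro h0
      exact hk (congrFun h0 0)) (fun _ => by exact_mod_cast hkQ) (round ((k : ℝ) * θ))
    rw [Fin.sum_univ_one] at h1
    unfold nn
    rw [hκ]
    linarith) hU hV
  have hUV0 : 0 < (U.card : ℝ) * V.card := lt_of_lt_of_le (by positivity) hUV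
  refine abs_le_of_sq_le_sq' ?_ (by positivity) |>.2
  refine hb.trans ?_
  have hkey : (X : ℝ) * (Y / (Q + 1) + 1) + Y / (2 * κ) ≤ ε ^ 2 * (U.card * V.card) := by
    have h1 : (X : ℝ) * Y / W ≤ U.card * V.card := by
      refine le_trans (le_of_eq ?_) hUV
      rw [hW, Real.rpow_sub hXY0, Real.rpow_one]
    have h2 : 3 * ((X : ℝ) * Y / (a * W)) ≤ ε ^ 2 * (U.card * V.card) := by
      have h3 : 3 * ((X : ℝ) * Y / (a * W)) = ε ^ 2 * ((X : ℝ) * Y / W) := by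
        rw [hadef]
        field_simp
      rw [h3]
      gcongr
    have h3 : (X : ℝ) * (Y / (Q + 1)) ≤ (X : ℝ) * Y / (a * W) := by
      rw [← mul_div_assoc]
      gcongr
    have h4 : (X : ℝ) ≤ (X : ℝ) * Y / (a * W) := by
      rw [le_div_iff₀ (by positivity)]
      gcongr
    have h5 : (Y : ℝ) / (2 * κ) ≤ (X : ℝ) * Y / (a * W) := by
      have h6 : 2 * κ = c₀ * (Q : ℝ) ^ (-τ) := by rw [hκ]; ring
      have h7 : c₀ / (a * W) ^ τ ≤ 2 * κ := by
        rw [h6, Real.rpow_neg hQ0.le, ← div_eq_mul_inv]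
        gcongr
      have h8 : (Y : ℝ) / (2 * κ) ≤ Y / (c₀ / (a * W) ^ τ) := by gcongr
      refine h8.trans ?_
      rw [div_div_eq_mul_div, div_le_div_iff₀ hc₀ (by positivity)]
      have h9 : (a * W) ^ (1 + τ) = (a * W) * (a * W) ^ τ := by
        rw [Real.rpow_add (by positivity), Real.rpow_one]
      rw [div_le_iff₀ hc₀, h9] at hX3
      calc (Y : ℝ) * (a * W) ^ τ * (a * W) = Y * ((a * W) * (a * W) ^ τ) := by ring
        _ ≤ Y * (X * c₀) := by gcongr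
        _ = X * Y * c₀ := by ring
    linarith
  calc (U.card : ℝ) * V.card * (X * (Y / (Q + 1) + 1) + Y / (2 * κ)) ≤
        U.card * V.card * (ε ^ 2 * (U.card * V.card)) :=
        mul_le_mul_of_nonneg_left hkey hUV0.le
    _ = (ε * (U.card * V.card)) ^ 2 := by ring

end Pool.Agent.L5helper14.RDM
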