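import Pool.Agent.H469R2.NK.KL

/-!
# Distances to the nearest integer along powers of a base (helper file)

Owner helper14.
-/

set_option autoImplicit false

namespace Pool.Agent.L5helper14.RDM

open Finset
open Pool.Agent.H469R2.NK (e norm_e e_add)

/-- The distance to the nearest integer. -/
noncomputable def nn (x : ℝ) : ℝ := |x - round x|

lemma nn_nonneg (x : ℝ) : 0 ≤ nn x := abs_nonneg _

lemma nn_le_half (x : ℝ) : nn x ≤ 1 / 2 := abs_sub_round x

lemma nn_le (x : ℝ) (z : ℤ) : nn x ≤ |x - z| := round_le x z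

lemma nn_add (x y : ℝ) : nn (x + y) ≤ nn x + nn y := by
  refine (nn_le (x + y) (round x + round y)).trans ?_
  push_cast
  have : x + y - (round x + round y : ℝ) = (x - round x) + (y - round y) := by ring
  rw [this]
  exact abs_add_le _ _

lemma nn_int_mul (k : ℤ) (x : ℝ) : nn (k * x) ≤ |(k : ℝ)| * nn x := by
  refine (nn_le (k * x) (k * round x)).trans ?_
  push_cast
  rw [← mul_sub, abs_mul]
  exact le_rfl

lemma nn_neg (x : ℝ) : nn (-x) = nn x := by
  apply le_antisymm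
  · have := nn_int_mul (-1) x
    simpa using this
  · have := nn_int_mul (-1) (-x)
    simpa using this

lemma nn_eq {x : ℝ} {z : ℤ} (h : |x - z| ≤ 1 / 2) : nn x = |x - z| := by
  apply le_antisymm (nn_le x z)
  by_cases hz : round x = z
  · unfold nn
    rw [hz]
  · have h1 : (1 : ℤ) ≤ |round x - z| := Int.one_le_abs (sub_ne_zero.2 hz)
    have h2 : (1 : ℝ) ≤ |((round x : ℤ) : ℝ) - z| := by exact_mod_cast h1
    have h3 : |((round x : ℤ) : ℝ) - z| ≤ |x - round x| + |x - z| := by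
      have : ((round x : ℤ) : ℝ) - z = -(x - round x) + (x - z) := by ring
      rw [this]
      refine (abs_add_le _ _).trans ?_
      rw [abs_neg]
    unfold nn
    linarith

lemma nn_pos {x : ℝ} (h : Irrational x) : 0 < nn x := by
  unfold nn
  rw [abs_pos, sub_ne_zero]
  exact h.ne_int _

/-- The multiple of a number which is near an integer. -/
lemma nn_nat_mul {k : ℕ} {x : ℝ} (h : k * nn x ≤ 1 / 2) : nn (k * x) = k * nn x := by
  have h1 : (k : ℝ) * x - ((k * round x : ℤ) : ℝ) = k * (x - round x) := by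
    push_cast
    ring
  have h2 : |(k : ℝ) * x - ((k * round x : ℤ) : ℝ)| = k * nn x := by
    rw [h1, abs_mul, Nat.abs_cast]
    rfl
  rw [nn_eq (z := k * round x) (by rw [h2]; exact h), h2]

/-- Two terms. -/
lemma one_add_e (t : ℝ) : ‖1 + e t‖ ≤ 2 - 4 * nn t ^ 2 := by
  have hn := nn_le_half t
  have hn0 := nn_nonneg t
  have hr : 0 ≤ 2 - 4 * nn t ^ 2 := by nlinarith
  refine abs_le_of_sq_le_sq' ?_ hr |>.2
  have h1 : ‖1 + e t‖ ^ 2 = 2 + 2 * Real.cos (2 * Real.pi * t) := by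
    have h2 : e t = ((Real.cos (2 * Real.pi * t) : ℝ) : ℂ) +
        ((Real.sin (2 * Real.pi * t) : ℝ) : ℂ) * Complex.I := by
      unfold e
      rw [Complex.exp_mul_I, Complex.ofReal_cos, Complex.ofReal_sin]
    rw [← Complex.normSq_eq_norm_sq, h2]
    have h3 : (1 : ℂ) + (((Real.cos (2 * Real.pi * t) : ℝ) : ℂ) +
        ((Real.sin (2 * Real.pi * t) : ℝ) : ℂ) * Complex.I) =
        ((1 + Real.cos (2 * Real.pi * t) : ℝ) : ℂ) +
        ((Real.sin (2 * Real.pi * t) : ℝ) : ℂ) * Complex.I := by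
      push_cast
      ring
    rw [h3, Complex.normSq_add_mul_I]
    have := Real.sin_sq_add_cos_sq (2 * Real.pi * t)
    nlinarith
  have h2 : Real.cos (2 * Real.pi * t) ≤ 1 - 8 * nn t ^ 2 := by
    have h3 : Real.cos (2 * Real.pi * t) = Real.cos (2 * Real.pi * (t - round t)) := by
      have : 2 * Real.pi * (t - round t) = 2 * Real.pi * t - (round t : ℤ) * (2 * Real.pi) := by
        ring
      rw [this, Real.cos_sub_int_mul_two_pi]
    have h4 : |2 * Real.pi * (t - round t)| ≤ Real.pi := by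
      rw [abs_mul, abs_of_pos (by positivity : (0 : ℝ) < 2 * Real.pi)]
      have := nn_le_half t
      unfold nn at this
      have hpi := Real.pi_pos
      nlinarith
    have h5 := Real.cos_le_one_sub_mul_cos_sq h4
    rw [h3]
    refine h5.trans (le_of_eq ?_)
    have h6 : (2 * Real.pi * (t - round t)) ^ 2 = 4 * Real.pi ^ 2 * nn t ^ 2 := by
      unfold nn
      rw [sq_abs]
      ring
    rw [h6]
    have hpi := Real.pi_ne_zero
    field_simp
    ring
  rw [h1]
  nlinarith [sq_nonneg (nn t ^ 2)]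

lemma norm_add_e (x y : ℝ) : ‖e x + e y‖ ≤ 2 - 4 * nn (x - y) ^ 2 := by
  have h1 : e x + e y = e y * (1 + e (x - y)) := by
    rw [mul_add, mul_one, ← e_add]
    have : y + (x - y) = x := by ring
    rw [this, add_comm]
  rw [h1, norm_mul, norm_e, one_mul]
  exact one_add_e _

/-- A sum over a set with two given members. -/
lemma set_bound {A : Finset ℕ} {x y : ℕ} (hx : x ∈ A) (hy : y ∈ A) (hxy : x ≠ y) (φ : ℕ → ℝ) :
    ‖∑ a ∈ A, e (φ a)‖ ≤ A.card - 4 * nn (φ x - φ y) ^ 2 := by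
  classical
  have h1 : ∑ a ∈ A, e (φ a) = (e (φ x) + e (φ y)) + ∑ a ∈ (A.erase x).erase y, e (φ a) := by
    rw [← add_sum_erase A _ hx, ← add_sum_erase (A.erase x) _ (mem_erase.2 ⟨hxy.symm, hy⟩)]
    ring
  rw [h1]
  refine (norm_add_le _ _).trans ?_
  have h2 : ‖∑ a ∈ (A.erase x).erase y, e (φ a)‖ ≤ ((A.erase x).erase y).card := by
    refine (norm_sum_le _ _).trans ?_
    simp [norm_e]
  have h3 : (((A.erase x).erase y).card : ℝ) = A.card - 2 := by
    have h4 : ((A.erase x).erase y).card + 2 = A.card := by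
      rw [card_erase_of_mem (mem_erase.2 ⟨hxy.symm, hy⟩), card_erase_of_mem hx]
      have : 1 < A.card := one_lt_card.2 ⟨x, hx, y, hy, hxy⟩
      omega
    have : (((A.erase x).erase y).card : ℝ) + 2 = A.card := by exact_mod_cast h4
    linarith
  have := norm_add_e (φ x) (φ y)
  linarith

/-- Every block of `g` consecutive positions below `K` contains a position in `F`. -/
def Syn (g K : ℕ) (F : ℕ → Prop) : Prop := ∀ i, i + g ≤ K → ∃ j, i ≤ j ∧ j < i + g ∧ F j

lemma irr_pow {b : ℕ} (hb : 2 ≤ b) {θ : ℝ} (hθ : Irrational θ) (i : ℕ) :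
    Irrational (θ * (b : ℝ) ^ i) := by
  have h1 : ((b ^ i : ℕ) : ℝ) = (b : ℝ) ^ i := by push_cast; rfl
  rw [← h1]
  exact hθ.mul_natCast (pow_pos (by omega) i).ne'

/-- After every position there is a position in `F`, not much later, at which the multiple of `θ` is
not near an integer. -/
lemma one_large {b g : ℕ} (hb : 2 ≤ b) (hg : 1 ≤ g) {θ : ℝ} (hθ : Irrational θ) (i₀ : ℕ) :
    ∃ i₁ : ℕ, i₀ < i₁ ∧ ∀ K, i₁ ≤ K → ∀ F : ℕ → Prop, Syn g K F →
      ∃ i, i₀ ≤ i ∧ i < i₁ ∧ F i ∧ 1 / (2 * (b : ℝ) ^ g) ≤ nn (θ * (b : ℝ) ^ i) := by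
  have hb0 : (0 : ℝ) < b := by exact_mod_cast (by omega : 0 < b)
  obtain ⟨i, hi, hmin⟩ := (Finset.Ico i₀ (i₀ + g)).exists_min_image
    (fun i => nn (θ * (b : ℝ) ^ i)) ⟨i₀, by simp; omega⟩
  obtain ⟨μ, hμ⟩ : ∃ μ, μ = nn (θ * (b : ℝ) ^ i) := ⟨_, rfl⟩
  have hμ0 : 0 < μ := by rw [hμ]; exact nn_pos (irr_pow hb hθ i)
  rw [← hμ] at hmin
  obtain ⟨J, hJ⟩ := pow_unbounded_of_one_lt (1 / μ) (by norm_num : (1 : ℝ) < 2)
  refine ⟨i₀ + g * (J + 1), by nlinarith, fun K hK F hF => ?_⟩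
  by_contra hcon
  push Not at hcon
  have key : ∀ j, j ≤ J → ∃ f, i₀ ≤ f ∧ f < i₀ + g * (j + 1) ∧ F f ∧
      2 ^ j * μ ≤ nn (θ * (b : ℝ) ^ f) := by
    intro j
    induction j with
    | zero =>
      intro _
      have hle : i₀ + g ≤ K := by nlinarith
      obtain ⟨f, h1, h2, h3⟩ := hF i₀ hle
      refine ⟨f, h1, by omega, h3, ?_⟩
      have := hmin f (Finset.mem_Ico.2 ⟨h1, h2⟩)
      simpa using this
    | succ j ih =>
      intro hj
      obtain ⟨f, h1, h2, h3, h4⟩ := ih (by omega)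
      have hsmall := hcon f h1 (by nlinarith) h3
      have hle : f + 1 + g ≤ K := by nlinarith
      obtain ⟨f', h5, h6, h7⟩ := hF (f + 1) hle
      refine ⟨f', by omega, by nlinarith, h7, ?_⟩
      obtain ⟨k, hk⟩ : ∃ k, f' = f + k := ⟨f' - f, by omega⟩
      have hk1 : 1 ≤ k := by omega
      have hkg : k ≤ g := by omega
      have hpk : ((b ^ k : ℕ) : ℝ) = (b : ℝ) ^ k := by push_cast; rfl
      have h8 : ((b ^ k : ℕ) : ℝ) * nn (θ * (b : ℝ) ^ f) ≤ 1 / 2 := by
        rw [hpk]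
        have h9 : (b : ℝ) ^ k ≤ (b : ℝ) ^ g :=
          pow_le_pow_right₀ (by exact_mod_cast (by omega : 1 ≤ b)) hkg
        have hg0 : (0 : ℝ) < (b : ℝ) ^ g := by positivity
        calc (b : ℝ) ^ k * nn (θ * (b : ℝ) ^ f) ≤ (b : ℝ) ^ g * (1 / (2 * (b : ℝ) ^ g)) :=
              mul_le_mul h9 hsmall.le (nn_nonneg _) hg0.le
          _ = 1 / 2 := by field_simp
      have h10 := nn_nat_mul h8
      have h11 : θ * (b : ℝ) ^ f' = ((b ^ k : ℕ) : ℝ) * (θ * (b : ℝ) ^ f) := by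
        rw [hk, pow_add, hpk]
        ring
      rw [h11, h10, hpk, pow_succ]
      have h12 : (2 : ℝ) ≤ (b : ℝ) ^ k := by
        have : (b : ℝ) ^ 1 ≤ (b : ℝ) ^ k :=
          pow_le_pow_right₀ (by exact_mod_cast (by omega : 1 ≤ b)) hk1
        rw [pow_one] at this
        have : (2 : ℝ) ≤ b := by exact_mod_cast hb
        linarith
      calc 2 ^ j * 2 * μ = 2 * (2 ^ j * μ) := by ring
        _ ≤ (b : ℝ) ^ k * nn (θ * (b : ℝ) ^ f) :=
          mul_le_mul h12 h4 (by positivity) (by positivity)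
  obtain ⟨f, h1, h2, h3, h4⟩ := key J le_rfl
  have h5 := nn_le_half (θ * (b : ℝ) ^ f)
  have h6 : 1 < 2 ^ J * μ := by
    rw [div_lt_iff₀ hμ0] at hJ
    exact hJ
  linarith

/-- There are many positions in `F` at which the multiple of `θ` is not near an integer. -/
theorem many_large {b g : ℕ} (hb : 2 ≤ b) (hg : 1 ≤ g) {θ : ℝ} (hθ : Irrational θ) (n : ℕ) :
    ∃ M : ℕ, ∀ K, M ≤ K → ∀ (F : ℕ → Prop) [DecidablePred F], Syn g K F →
      n * (1 / (2 * (b : ℝ) ^ g)) ^ 2 ≤ ∑ i ∈ (range M).filter F, nn (θ * (b : ℝ) ^ i) ^ 2 := by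
  have hb0 : (0 : ℝ) < b := by exact_mod_cast (by omega : 0 < b)
  induction n with
  | zero =>
    refine ⟨0, fun K _ F _ _ => ?_⟩
    simp
  | succ n ih =>
    obtain ⟨M, hM⟩ := ih
    obtain ⟨M', hMM, hM'⟩ := one_large hb hg hθ M
    refine ⟨M', fun K hK F _ hF => ?_⟩
    obtain ⟨i, h1, h2, h3, h4⟩ := hM' K hK F hF
    have h5 := hM K (by omega) F hF
    have h6 : insert i ((range M).filter F) ⊆ (range M').filter F := by
      intro j hj
      rcases mem_insert.1 hj with rfl | hj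
      · exact mem_filter.2 ⟨mem_range.2 h2, h3⟩
      · obtain ⟨h7, h8⟩ := mem_filter.1 hj
        exact mem_filter.2 ⟨mem_range.2 (by have := mem_range.1 h7; omega), h8⟩
    have h7 : i ∉ (range M).filter F := by
      intro h
      have := mem_range.1 (mem_filter.1 h).1
      omega
    have h8 := sum_le_sum_of_subset_of_nonneg h6
      (f := fun i => nn (θ * (b : ℝ) ^ i) ^ 2) (fun _ _ _ => sq_nonneg _)
    rw [sum_insert h7] at h8
    refine le_trans ?_ h8
    have h9 : (1 / (2 * (b : ℝ) ^ g)) ^ 2 ≤ nn (θ * (b : ℝ) ^ i) ^ 2 :=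
      pow_le_pow_left₀ (by positivity) h4 2
    push_cast
    linarith

end Pool.Agent.L5helper14.RDM
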