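import Pool.Agent.L5helper14.RDM.Walk

/-!
# Exponential sums over random sets of integers (helper file)

Owner helper14.
-/

set_option autoImplicit false

namespace Pool.Agent.L5helper14.RDM

open Finset Filter MeasureTheory ProbabilityTheory Topology
open Pool.Agent.H469R2.NK (e norm_e e_add)

section

variable {Ω : Type} [MeasurableSpace Ω] {P : Measure Ω} [IsProbabilityMeasure P]

/-- **A strong law along a subsequence**, from the second moments. -/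
theorem slln_sub {Z : ℕ → Ω → ℂ} (hZ : ∀ n, Measurable (Z n)) (h1 : ∀ n ω, ‖Z n ω‖ ≤ 1)
    (M : ℕ → ℕ) (h2 : ∀ k : ℕ, ∫ ω, ‖∑ n ∈ range (M k), Z n ω‖ ^ 2 ∂P ≤ (k : ℝ) ^ 2 + 1) :
    ∀ᵐ ω ∂P, ∀ ε : ℝ, 0 < ε → ∃ k₀ : ℕ, ∀ k, k₀ ≤ k →
      ‖∑ n ∈ range (M k), Z n ω‖ ≤ ε * (k : ℝ) ^ 2 := by
  obtain ⟨W, hW⟩ : ∃ W : ℕ → Ω → ℝ, W = fun N ω => ‖∑ n ∈ range N, Z n ω‖ ^ 2 := ⟨_, rfl⟩
  have hWm : ∀ N, Measurable (W N) := by
    intro N
    rw [hW]
    exact ((Finset.measurable_sum _ fun n _ => hZ n).norm).pow_const 2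
  have hW0 : ∀ N ω, 0 ≤ W N ω := fun N ω => by rw [hW]; positivity
  have hWb : ∀ N ω, W N ω ≤ (N : ℝ) ^ 2 := by
    intro N ω
    rw [hW]
    apply pow_le_pow_left₀ (norm_nonneg _)
    refine (norm_sum_le _ _).trans ((sum_le_sum fun n _ => h1 n ω).trans ?_)
    simp
  have hWi : ∀ N, Integrable (W N) P := fun N =>
    Integrable.of_bound (hWm N).aestronglyMeasurable ((N : ℝ) ^ 2)
      (Eventually.of_forall fun ω => by rw [Real.norm_of_nonneg (hW0 N ω)]; exact hWb N ω)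
  obtain ⟨F, hF⟩ : ∃ F : ℕ → Ω → ENNReal, F = fun k ω =>
    ENNReal.ofReal (W (M (k + 1)) ω / ((k + 1 : ℕ) : ℝ) ^ 4) := ⟨_, rfl⟩
  have hFm : ∀ k, Measurable (F k) := by
    intro k
    rw [hF]
    exact ((hWm _).div_const _).ennreal_ofReal
  have hFi : ∀ k, ∫⁻ ω, F k ω ∂P ≤ ENNReal.ofReal (2 * (1 / ((k + 1 : ℕ) : ℝ) ^ 2)) := by
    intro k
    have hk : (1 : ℝ) ≤ ((k + 1 : ℕ) : ℝ) := by exact_mod_cast Nat.succ_pos k
    rw [hF]
    simp only
    rw [← ofReal_integral_eq_lintegral_ofReal ((hWi _).div_const _)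
      (Eventually.of_forall fun ω => div_nonneg (hW0 _ _) (by positivity)), integral_div]
    apply ENNReal.ofReal_le_ofReal
    have h4 : ∫ ω, W (M (k + 1)) ω ∂P ≤ ((k + 1 : ℕ) : ℝ) ^ 2 + 1 := by
      rw [hW]
      exact h2 (k + 1)
    rw [div_le_iff₀ (by positivity)]
    refine h4.trans ?_
    have h5 : 2 * (1 / ((k + 1 : ℕ) : ℝ) ^ 2) * ((k + 1 : ℕ) : ℝ) ^ 4 =
        2 * ((k + 1 : ℕ) : ℝ) ^ 2 := by field_simp
    rw [h5]
    nlinarith
  have hsum : ∑' k : ℕ, ENNReal.ofReal (2 * (1 / ((k + 1 : ℕ) : ℝ) ^ 2)) ≠ ⊤ := by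
    have hs : Summable fun k : ℕ => 2 * (1 / ((k + 1 : ℕ) : ℝ) ^ 2) := by
      have h3 : Summable fun k : ℕ => 1 / ((k : ℕ) : ℝ) ^ 2 :=
        Real.summable_one_div_nat_pow.2 (by norm_num)
      exact ((summable_nat_add_iff 1).2 h3).mul_left 2
    exact hs.tsum_ofReal_ne_top
  have hfin : ∫⁻ ω, ∑' k, F k ω ∂P ≠ ⊤ := by
    rw [lintegral_tsum fun k => (hFm k).aemeasurable]
    exact ne_top_of_le_ne_top hsum (ENNReal.tsum_le_tsum hFi)
  have hae := ae_lt_top' (AEMeasurable.tsum fun k => (hFm k).aemeasurable) hfin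
  filter_upwards [hae] with ω hω ε hε
  have h5 := ENNReal.tendsto_atTop_zero_of_tsum_ne_top hω.ne
  have h6 := h5.eventually (gt_mem_nhds (show (0 : ENNReal) < ENNReal.ofReal (ε ^ 2) from
    ENNReal.ofReal_pos.2 (by positivity)))
  obtain ⟨k₀, hk₀⟩ := h6.exists_forall_of_atTop
  refine ⟨k₀ + 1, fun k hk => ?_⟩
  have h7 := hk₀ (k - 1) (by omega)
  rw [hF] at h7
  simp only at h7
  rw [Nat.sub_add_cancel (by omega : 1 ≤ k)] at h7
  have h8 := (ENNReal.ofReal_lt_ofReal_iff (by positivity)).1 h7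
  have hq0 : (0 : ℝ) < k := by exact_mod_cast (by omega : 0 < k)
  rw [div_lt_iff₀ (by positivity), hW] at h8
  simp only at h8
  apply le_of_sq_le_sq _ (by positivity)
  have : (ε * (k : ℝ) ^ 2) ^ 2 = ε ^ 2 * (k : ℝ) ^ 4 := by ring
  rw [this]
  exact h8.le

/-- the random set below `M` -/
noncomputable def below (ξ : ℕ → Ω → Bool) (ω : Ω) (M : ℕ) : Finset ℕ :=
  (range M).filter fun m => ξ m ω = true

/-- the centred variables -/
noncomputable def cent (ξ : ℕ → Ω → Bool) (p : ℕ → ℝ) (θ : ℝ) (m : ℕ) (ω : Ω) : ℂ :=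
  (((if ξ m ω = true then 1 else 0) - p m : ℝ) : ℂ) * e (θ * m)

omit [MeasurableSpace Ω] in
lemma sum_cent (ξ : ℕ → Ω → Bool) (p : ℕ → ℝ) (θ : ℝ) (M : ℕ) (ω : Ω) :
    ∑ m ∈ range M, cent ξ p θ m ω =
      ∑ m ∈ below ξ ω M, e (θ * m) - ∑ m ∈ range M, (p m : ℂ) * e (θ * m) := by
  unfold below cent
  rw [sum_filter, ← sum_sub_distrib]
  refine sum_congr rfl fun m _ => ?_
  push_cast
  split_ifs <;> simp [sub_mul]

/-- The second moment of the centred sums. -/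
lemma second_cent {ξ : ℕ → Ω → Bool} (hξ : ∀ m, Measurable (ξ m)) (hind : iIndepFun ξ P)
    {p : ℕ → ℝ} (hp : ∀ m, P.real {ω | ξ m ω = true} = p m) (θ : ℝ) (M : ℕ) :
    (∀ m, Measurable (cent ξ p θ m)) ∧ (∀ m ω, ‖cent ξ p θ m ω‖ ≤ 1) ∧
    ∫ ω, ‖∑ m ∈ range M, cent ξ p θ m ω‖ ^ 2 ∂P ≤ ∑ m ∈ range M, p m := by
  have hp0 : ∀ m, 0 ≤ p m := fun m => by rw [← hp]; exact measureReal_nonneg
  have hp1 : ∀ m, p m ≤ 1 := fun m => by rw [← hp]; exact measureReal_le_one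
  obtain ⟨Y, hY⟩ : ∃ Y : ℕ → Bool → ℝ, Y = fun m x => (if x = true then 1 else 0) - p m := ⟨_, rfl⟩
  have hYm : ∀ m, Measurable fun ω => Y m (ξ m ω) := fun m =>
    (Measurable.of_discrete (f := Y m)).comp (hξ m)
  have hYb : ∀ m ω, |Y m (ξ m ω)| ≤ 1 := by
    intro m ω
    rw [hY]
    simp only
    have h1 := hp0 m
    have h2 := hp1 m
    rw [abs_le]
    split_ifs <;> constructor <;> linarith
  have hYi : ∀ m, Integrable (fun ω => Y m (ξ m ω)) P := fun m =>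
    Integrable.of_bound (hYm m).aestronglyMeasurable 1 (Eventually.of_forall fun ω => hYb m ω)
  have hind1 : ∀ m, ∫ ω, (if ξ m ω = true then (1 : ℝ) else 0) ∂P = p m := by
    intro m
    have h1 : (fun ω => if ξ m ω = true then (1 : ℝ) else 0) =
        Set.indicator {ω | ξ m ω = true} (fun _ => (1 : ℝ)) := by
      funext ω
      simp only [Set.indicator_apply, Set.mem_ofPred_eq]
    have hset : MeasurableSet {ω | ξ m ω = true} := hξ m (measurableSet_singleton true)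
    rw [h1, integral_indicator_const _ hset, hp]
    simp
  have hint1 : ∀ m, Integrable (fun ω => if ξ m ω = true then (1 : ℝ) else 0) P := by
    intro m
    have h1 := (hYi m).add (integrable_const (p m))
    refine h1.congr (Eventually.of_forall fun ω => ?_)
    simp only [Pi.add_apply, hY]
    ring
  have hY0 : ∀ m, ∫ ω, Y m (ξ m ω) ∂P = 0 := by
    intro m
    rw [hY]
    simp only
    rw [integral_sub (hint1 m) (integrable_const _), hind1]
    simp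
  have hY2 : ∀ m, ∫ ω, Y m (ξ m ω) ^ 2 ∂P ≤ p m := by
    intro m
    have h1 : ∀ ω, Y m (ξ m ω) ^ 2 = (1 - 2 * p m) * (if ξ m ω = true then (1 : ℝ) else 0) +
        p m ^ 2 := by
      intro ω
      rw [hY]
      simp only
      split_ifs <;> ring
    simp_rw [h1]
    rw [integral_add ((hint1 m).const_mul _) (integrable_const _), integral_const_mul, hind1]
    simp only [integral_const, probReal_univ, smul_eq_mul, one_mul]
    nlinarith [sq_nonneg (p m)]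
  have hcent : ∀ m ω, cent ξ p θ m ω = (Y m (ξ m ω) : ℂ) * e (θ * m) := by
    intro m ω
    rw [hY]
    rfl
  have hmeas : ∀ m, Measurable (cent ξ p θ m) := by
    intro m
    have h1 : cent ξ p θ m = fun ω => (Y m (ξ m ω) : ℂ) * e (θ * m) := funext (hcent m)
    rw [h1]
    exact (Complex.measurable_ofReal.comp (hYm m)).mul_const _
  have hnorm : ∀ m ω, ‖cent ξ p θ m ω‖ ≤ 1 := by
    intro m ω
    rw [hcent, norm_mul, norm_e, mul_one, Complex.norm_real]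
    exact hYb m ω
  refine ⟨hmeas, hnorm, ?_⟩
  have hint : ∀ n m, Integrable (fun ω => cent ξ p θ n ω * (starRingEnd ℂ) (cent ξ p θ m ω)) P := by
    intro n m
    refine Integrable.of_bound ((hmeas n).mul
      (Complex.continuous_conj.measurable.comp (hmeas m))).aestronglyMeasurable 1
      (Eventually.of_forall fun ω => ?_)
    rw [norm_mul, Complex.norm_conj]
    nlinarith [hnorm n ω, hnorm m ω, norm_nonneg (cent ξ p θ n ω), norm_nonneg (cent ξ p θ m ω)]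
  have hprod : ∀ n m, ∫ ω, cent ξ p θ n ω * (starRingEnd ℂ) (cent ξ p θ m ω) ∂P =
      if n = m then ((∫ ω, Y n (ξ n ω) ^ 2 ∂P : ℝ) : ℂ) else 0 := by
    intro n m
    have h1 : ∀ ω, cent ξ p θ n ω * (starRingEnd ℂ) (cent ξ p θ m ω) =
        (e (θ * n) * e (-(θ * m))) * ((Y n (ξ n ω) * Y m (ξ m ω) : ℝ) : ℂ) := by
      intro ω
      rw [hcent, hcent, map_mul, Complex.conj_ofReal, e_conj]
      push_cast
      ring
    simp_rw [h1]
    rw [integral_const_mul, integral_complex_ofReal]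
    split_ifs with h
    · rw [h, ← e_add, add_neg_cancel]
      have h2 : e 0 = 1 := by simp [Pool.Agent.H469R2.NK.e]
      rw [h2, one_mul]
      congr 2
      funext ω
      ring
    · have h2 : IndepFun (fun ω => Y n (ξ n ω)) (fun ω => Y m (ξ m ω)) P :=
        (hind.indepFun h).comp (φ := Y n) (ψ := Y m) Measurable.of_discrete Measurable.of_discrete
      have h3 := h2.integral_fun_mul_eq_mul_integral (hYm n).aestronglyMeasurable
        (hYm m).aestronglyMeasurable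
      rw [h3, hY0, zero_mul]
      simp
  have h4 : ((∫ ω, ‖∑ n ∈ range M, cent ξ p θ n ω‖ ^ 2 ∂P : ℝ) : ℂ) =
      ∑ n ∈ range M, ((∫ ω, Y n (ξ n ω) ^ 2 ∂P : ℝ) : ℂ) := by
    rw [← integral_complex_ofReal]
    have h5 : ∀ ω, (((‖∑ n ∈ range M, cent ξ p θ n ω‖ ^ 2 : ℝ)) : ℂ) =
        ∑ n ∈ range M, ∑ m ∈ range M, cent ξ p θ n ω * (starRingEnd ℂ) (cent ξ p θ m ω) := by
      intro ω
      rw [← Complex.normSq_eq_norm_sq, ← Complex.mul_conj, map_sum, sum_mul_sum]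
    simp_rw [h5]
    rw [integral_finsetSum _ fun n _ => integrable_finsetSum _ fun m _ => hint n m]
    refine sum_congr rfl fun n hn => ?_
    rw [integral_finsetSum _ fun m _ => hint n m]
    simp_rw [hprod]
    rw [sum_ite_eq, if_pos hn]
  have h6 : ∫ ω, ‖∑ n ∈ range M, cent ξ p θ n ω‖ ^ 2 ∂P =
      ∑ n ∈ range M, ∫ ω, Y n (ξ n ω) ^ 2 ∂P := by exact_mod_cast h4
  rw [h6]
  exact sum_le_sum fun n _ => hY2 n

/-- Summation by parts. -/
lemma abel {p : ℕ → ℝ} (hp : Antitone p) (hp0 : ∀ m, 0 ≤ p m) (hp1 : ∀ m, p m ≤ 1) {θ : ℝ}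
    (hθ : Irrational θ) : ∃ B : ℝ, ∀ M : ℕ, ‖∑ m ∈ range M, (p m : ℂ) * e (θ * m)‖ ≤ B := by
  have hne : e θ - 1 ≠ 0 := by
    intro h
    obtain ⟨z, hz⟩ := (e_eq_one_iff θ).1 (sub_eq_zero.1 h)
    exact hθ.ne_int z hz
  have hgeom : ∀ M : ℕ, ‖∑ m ∈ range M, e (θ * m)‖ ≤ 2 / ‖e θ - 1‖ := by
    intro M
    have h1 : ∀ m : ℕ, e (θ * m) = e θ ^ m := by
      intro m
      induction m with
      | zero => simp [Pool.Agent.H469R2.NK.e]
      | succ m ih =>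
        rw [pow_succ, ← ih, ← e_add]
        congr 1
        push_cast
        ring
    simp_rw [h1]
    rw [geom_sum_eq (sub_ne_zero.1 hne), norm_div]
    apply div_le_div_of_nonneg_right _ (norm_nonneg _)
    refine (norm_sub_le _ _).trans ?_
    rw [norm_pow, norm_e, one_pow, norm_one]
    norm_num
  refine ⟨2 / ‖e θ - 1‖, fun M => ?_⟩
  obtain ⟨G, hG⟩ : ∃ G : ℕ → ℂ, G = fun M => ∑ m ∈ range M, e (θ * m) := ⟨_, rfl⟩
  have hparts : ∀ M : ℕ, ∑ m ∈ range (M + 1), (p m : ℂ) * e (θ * m) =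
      (p M : ℂ) * G (M + 1) + ∑ m ∈ range M, ((p m : ℂ) - p (m + 1)) * G (m + 1) := by
    intro M
    induction M with
    | zero => simp [hG]
    | succ M ih =>
      rw [sum_range_succ, ih, sum_range_succ _ M]
      have h2 : G (M + 1 + 1) = G (M + 1) + e (θ * ((M + 1 : ℕ) : ℝ)) := by
        rw [hG]
        exact sum_range_succ _ _
      rw [h2]
      ring
  rcases Nat.eq_zero_or_pos M with rfl | hM
  · simp
    positivity
  · obtain ⟨K, rfl⟩ : ∃ K, M = K + 1 := ⟨M - 1, by omega⟩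
    rw [hparts]
    have hG1 : ∀ m, ‖G m‖ ≤ 2 / ‖e θ - 1‖ := fun m => by rw [hG]; exact hgeom m
    have h3 : ‖(p K : ℂ) * G (K + 1)‖ ≤ p K * (2 / ‖e θ - 1‖) := by
      rw [norm_mul, Complex.norm_real, Real.norm_of_nonneg (hp0 K)]
      exact mul_le_mul_of_nonneg_left (hG1 _) (hp0 K)
    have h4 : ‖∑ m ∈ range K, ((p m : ℂ) - p (m + 1)) * G (m + 1)‖ ≤
        (p 0 - p K) * (2 / ‖e θ - 1‖) := by
      refine (norm_sum_le _ _).trans ?_
      have h5 : ∀ m ∈ range K, ‖((p m : ℂ) - p (m + 1)) * G (m + 1)‖ ≤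
          (p m - p (m + 1)) * (2 / ‖e θ - 1‖) := by
        intro m _
        have h6 : 0 ≤ p m - p (m + 1) := sub_nonneg.2 (hp (Nat.le_succ m))
        rw [norm_mul, ← Complex.ofReal_sub, Complex.norm_real, Real.norm_of_nonneg h6]
        exact mul_le_mul_of_nonneg_left (hG1 _) h6
      refine (sum_le_sum h5).trans (le_of_eq ?_)
      rw [← sum_mul, sum_range_sub']
    refine (norm_add_le _ _).trans ((add_le_add h3 h4).trans ?_)
    have h7 : p K * (2 / ‖e θ - 1‖) + (p 0 - p K) * (2 / ‖e θ - 1‖) = p 0 * (2 / ‖e θ - 1‖) := by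
      ring
    rw [h7]
    have h8 : 0 ≤ 2 / ‖e θ - 1‖ := by positivity
    nlinarith [hp1 0]

/-- **Random sets**: the number of the members and the exponential sums. -/
theorem rset_small {ξ : ℕ → Ω → Bool} (hξ : ∀ m, Measurable (ξ m)) (hind : iIndepFun ξ P)
    {p : ℕ → ℝ} (hp : ∀ m, P.real {ω | ξ m ω = true} = p m) (hanti : Antitone p)
    (hdiv : ¬ Summable p) :
    ∀ᵐ ω ∂P, Tendsto (fun M : ℕ => ((below ξ ω M).card : ℝ) / ∑ m ∈ range M, p m) atTop (𝓝 1) ∧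
      ∀ θ : ℝ, Irrational θ → IsAlgebraic ℤ θ → ∀ ε : ℝ, 0 < ε → ∃ M₀ : ℕ, ∀ M, M₀ ≤ M →
        ‖∑ m ∈ below ξ ω M, e (θ * m)‖ ≤ ε * (below ξ ω M).card := by
  have hp0 : ∀ m, 0 ≤ p m := fun m => by rw [← hp]; exact measureReal_nonneg
  have hp1 : ∀ m, p m ≤ 1 := fun m => by rw [← hp]; exact measureReal_le_one
  obtain ⟨σ, hσ⟩ : ∃ σ : ℕ → ℝ, σ = fun M => ∑ m ∈ range M, p m := ⟨_, rfl⟩
  have hσmono : Monotone σ := by
    intro a b hab
    rw [hσ]
    exact sum_le_sum_of_subset_of_nonneg (range_subset_range.2 hab) fun m _ _ => hp0 m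
  have hσtop : Tendsto σ atTop atTop := by
    rw [hσ]
    exact (not_summable_iff_tendsto_nat_atTop_of_nonneg hp0).1 hdiv
  have hex : ∀ k : ℕ, ∃ M : ℕ, (k : ℝ) ^ 2 ≤ σ M := fun k =>
    (hσtop.eventually_ge_atTop ((k : ℝ) ^ 2)).exists
  classical
  obtain ⟨M, hM⟩ : ∃ M : ℕ → ℕ, M = fun k => Nat.find (hex k) := ⟨_, rfl⟩
  have hM1 : ∀ k : ℕ, (k : ℝ) ^ 2 ≤ σ (M k) := fun k => by rw [hM]; exact Nat.find_spec (hex k)
  have hM2 : ∀ k : ℕ, σ (M k) ≤ (k : ℝ) ^ 2 + 1 := by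
    intro k
    rcases Nat.eq_zero_or_pos (M k) with h | h
    · rw [h, hσ]
      simp
      positivity
    · have h1 : σ (M k - 1) < (k : ℝ) ^ 2 := by
        have := Nat.find_min (hex k) (m := M k - 1) (by rw [hM] at h ⊢; simp only at h ⊢; omega)
        push Not at this
        exact this
      have h2 : σ (M k) = σ (M k - 1) + p (M k - 1) := by
        rw [hσ]
        simp only
        rw [← sum_range_succ, Nat.sub_add_cancel h]
      have h3 := hp1 (M k - 1)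
      linarith
  have hMmono : Monotone M := by
    intro a b hab
    rw [hM]
    apply Nat.find_min'
    have h1 := Nat.find_spec (hex b)
    refine le_trans ?_ h1
    have : (a : ℝ) ≤ b := by exact_mod_cast hab
    exact pow_le_pow_left₀ (Nat.cast_nonneg _) this 2
  have hsub : ∀ θ : ℝ, ∀ᵐ ω ∂P, ∀ ε : ℝ, 0 < ε → ∃ k₀ : ℕ, ∀ k, k₀ ≤ k →
      ‖∑ n ∈ range (M k), cent ξ p θ n ω‖ ≤ ε * (k : ℝ) ^ 2 := by
    intro θ
    obtain ⟨c1, c2, -⟩ := second_cent hξ hind hp θ 0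
    refine slln_sub c1 c2 M fun k => ?_
    have h1 := (second_cent hξ hind hp θ (M k)).2.2
    have h2 := hM2 k
    rw [hσ] at h2
    exact h1.trans h2
  have hcount : {θ : ℝ | IsAlgebraic ℤ θ}.Countable := Algebraic.countable ℤ ℝ
  have hall : ∀ᵐ ω ∂P, ∀ θ ∈ {θ : ℝ | IsAlgebraic ℤ θ}, ∀ ε : ℝ, 0 < ε → ∃ k₀ : ℕ, ∀ k, k₀ ≤ k →
      ‖∑ n ∈ range (M k), cent ξ p θ n ω‖ ≤ ε * (k : ℝ) ^ 2 := by
    rw [ae_ball_iff hcount]
    exact fun θ _ => hsub θ
  filter_upwards [hall] with ω hω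
  -- the number of the members
  have hN : ∀ K, ((below ξ ω K).card : ℂ) = ∑ m ∈ below ξ ω K, e (0 * m) := by
    intro K
    simp [Pool.Agent.H469R2.NK.e]
  have hNmono : ∀ a b, a ≤ b → below ξ ω a ⊆ below ξ ω b := by
    intro a b hab
    exact filter_subset_filter _ (range_subset_range.2 hab)
  have hNM : ∀ ε : ℝ, 0 < ε → ∃ k₀ : ℕ, ∀ k, k₀ ≤ k →
      |((below ξ ω (M k)).card : ℝ) - (k : ℝ) ^ 2| ≤ ε * (k : ℝ) ^ 2 := by
    intro ε hε
    obtain ⟨k₀, hk₀⟩ := hω 0 (isAlgebraic_zero) (ε / 2) (by positivity)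
    obtain ⟨k₁, hk₁⟩ := exists_nat_gt (2 / ε)
    refine ⟨max k₀ (k₁ + 1), fun k hk => ?_⟩
    have h1 := hk₀ k ((le_max_left _ _).trans hk)
    rw [sum_cent, ← hN] at h1
    have h2 : ∑ m ∈ range (M k), (p m : ℂ) * e (0 * m) = ((σ (M k) : ℝ) : ℂ) := by
      rw [hσ]
      simp [Pool.Agent.H469R2.NK.e]
    rw [h2] at h1
    have h3 : (((below ξ ω (M k)).card : ℂ) - ((σ (M k) : ℝ) : ℂ)) =
        ((((below ξ ω (M k)).card : ℝ) - σ (M k) : ℝ) : ℂ) := by push_cast; rfl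
    rw [h3, Complex.norm_real, Real.norm_eq_abs] at h1
    have h4 : |σ (M k) - (k : ℝ) ^ 2| ≤ 1 := by
      rw [abs_le]
      constructor <;> linarith [hM1 k, hM2 k]
    have h5 : 1 ≤ ε / 2 * (k : ℝ) ^ 2 := by
      have h6 : (k₁ : ℝ) + 1 ≤ k := by exact_mod_cast (le_max_right _ _).trans hk
      have h6' : (0 : ℝ) ≤ k₁ := Nat.cast_nonneg _
      rw [div_lt_iff₀ hε] at hk₁
      nlinarith
    have h7 := abs_sub_le ((below ξ ω (M k)).card : ℝ) (σ (M k)) ((k : ℝ) ^ 2)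
    linarith
  -- a number `k` for every large bound
  have hloc : ∀ k₀ : ℕ, ∃ K₀ : ℕ, ∀ K, K₀ ≤ K → ∃ k, k₀ ≤ k ∧ M k ≤ K ∧ K < M (k + 1) := by
    intro k₀
    refine ⟨M k₀, fun K hK => ?_⟩
    obtain ⟨b, hb⟩ : ∃ b : ℕ, K < M b := by
      obtain ⟨b, hb⟩ := exists_nat_gt (σ K)
      refine ⟨b + 1, ?_⟩
      by_contra hcon
      push Not at hcon
      have h1 := hσmono hcon
      have h2 := hM1 (b + 1)
      push_cast at h2
      have h3 : (0 : ℝ) ≤ b := Nat.cast_nonneg _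
      nlinarith
    obtain ⟨k, hk⟩ : ∃ k, k = Nat.findGreatest (fun k => M k ≤ K) b := ⟨_, rfl⟩
    have hkb : k₀ ≤ b := by
      by_contra hcon
      push Not at hcon
      have := hMmono hcon.le
      omega
    have h2 : k₀ ≤ k := by rw [hk]; exact Nat.le_findGreatest hkb hK
    have h3 : M k ≤ K := by rw [hk]; exact Nat.findGreatest_spec (P := fun k => M k ≤ K) hkb hK
    refine ⟨k, h2, h3, ?_⟩
    by_contra hcon
    push Not at hcon
    have h4 : k + 1 ≤ b := by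
      by_contra h5
      push Not at h5
      have := hMmono (show b ≤ k + 1 by omega)
      omega
    have h5 : k + 1 ≤ k := by
      conv_rhs => rw [hk]
      exact Nat.le_findGreatest h4 hcon
    omega
  -- a bound for the number of the members between two bounds
  have hbetween : ∀ ε : ℝ, 0 < ε → ε ≤ 1 → ∃ k₀ : ℕ, ∀ k, k₀ ≤ k →
      (1 - ε) * (k : ℝ) ^ 2 ≤ (below ξ ω (M k)).card ∧
        ((below ξ ω (M (k + 1))).card : ℝ) ≤ (1 + ε) * (k : ℝ) ^ 2 ∧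
        ((k : ℝ) + 1) ^ 2 + 1 ≤ (1 + ε) * (k : ℝ) ^ 2 ∧ 1 ≤ k := by
    intro ε hε hε1
    obtain ⟨k₀, hk₀⟩ := hNM (ε / 4) (by positivity)
    obtain ⟨k₁, hk₁⟩ := exists_nat_gt (12 / ε)
    refine ⟨max k₀ (k₁ + 1), fun k hk => ?_⟩
    have hk2 : (k₁ : ℝ) + 1 ≤ k := by exact_mod_cast (le_max_right _ _).trans hk
    have hk3 : (0 : ℝ) ≤ k₁ := Nat.cast_nonneg _
    rw [div_lt_iff₀ hε] at hk₁
    have h5 : (12 : ℝ) ≤ ε * k := by nlinarith
    have h6 : ((k : ℝ) + 1) ^ 2 + 1 ≤ (1 + ε / 3) * (k : ℝ) ^ 2 := by nlinarith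
    have h1 := hk₀ k ((le_max_left _ _).trans hk)
    have h2 := hk₀ (k + 1) (((le_max_left _ _).trans hk).trans (Nat.le_succ k))
    rw [abs_le] at h1 h2
    push_cast at h2
    have hk0 : (0 : ℝ) ≤ (k : ℝ) ^ 2 := by positivity
    refine ⟨by nlinarith, ?_, by nlinarith, by have := (le_max_right k₀ (k₁ + 1)).trans hk; omega⟩
    have h7 : ((k : ℝ) + 1) ^ 2 ≤ (1 + ε / 3) * (k : ℝ) ^ 2 := by linarith
    have h8 : ((below ξ ω (M (k + 1))).card : ℝ) ≤ (1 + ε / 4) * ((k : ℝ) + 1) ^ 2 := by linarith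
    have h9 : (1 + ε / 4) * ((k : ℝ) + 1) ^ 2 ≤ (1 + ε / 4) * ((1 + ε / 3) * (k : ℝ) ^ 2) :=
      mul_le_mul_of_nonneg_left h7 (by positivity)
    have h10 : (1 + ε / 4) * (1 + ε / 3) ≤ 1 + ε := by nlinarith
    have h11 : (1 + ε / 4) * ((1 + ε / 3) * (k : ℝ) ^ 2) ≤ (1 + ε) * (k : ℝ) ^ 2 := by
      rw [← mul_assoc]
      exact mul_le_mul_of_nonneg_right h10 hk0
    linarith
  have hcardmono : ∀ a b, a ≤ b → ((below ξ ω a).card : ℝ) ≤ (below ξ ω b).card := fun a b hab => by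
    exact_mod_cast card_le_card (hNmono a b hab)
  refine ⟨?_, ?_⟩
  · rw [Metric.tendsto_atTop]
    intro ε hε
    obtain ⟨ε', hε'⟩ : ∃ ε' : ℝ, ε' = min (ε / 8) (1 / 4) := ⟨_, rfl⟩
    have hε'0 : 0 < ε' := by rw [hε']; exact lt_min (by positivity) (by norm_num)
    have hε'1 : ε' ≤ 1 / 4 := by rw [hε']; exact min_le_right _ _
    have hε'2 : ε' ≤ ε / 8 := by rw [hε']; exact min_le_left _ _
    obtain ⟨k₀, hk₀⟩ := hbetween ε' hε'0 (by linarith)
    obtain ⟨K₀, hK₀⟩ := hloc k₀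
    refine ⟨K₀, fun K hK => ?_⟩
    obtain ⟨k, hk, hk1, hk2⟩ := hK₀ K hK
    obtain ⟨b1, b2, b3, b4⟩ := hk₀ k hk
    have hk0 : (0 : ℝ) < (k : ℝ) ^ 2 := by
      have : (1 : ℝ) ≤ k := by exact_mod_cast b4
      positivity
    have s1 : (k : ℝ) ^ 2 ≤ σ K := (hM1 k).trans (hσmono hk1)
    have s2 : σ K ≤ (1 + ε') * (k : ℝ) ^ 2 := by
      have := hM2 (k + 1)
      push_cast at this
      exact (hσmono hk2.le).trans (this.trans b3)
    have n1 := b1.trans (hcardmono _ _ hk1)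
    have n2 := (hcardmono _ _ hk2.le).trans b2
    have hσ0 : 0 < σ K := lt_of_lt_of_le hk0 s1
    have hσK : ∑ m ∈ range K, p m = σ K := by rw [hσ]
    rw [hσK, Real.dist_eq, div_sub_one hσ0.ne', abs_div, abs_of_pos hσ0, div_lt_iff₀ hσ0, abs_lt]
    constructor
    · nlinarith
    · nlinarith
  · intro θ hθ hθa ε hε
    obtain ⟨B, hB⟩ := abel hanti hp0 hp1 hθ
    obtain ⟨ε', hε'⟩ : ∃ ε' : ℝ, ε' = min (ε / 16) (1 / 4) := ⟨_, rfl⟩
    have hε'0 : 0 < ε' := by rw [hε']; exact lt_min (by positivity) (by norm_num)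
    have hε'1 : ε' ≤ 1 / 4 := by rw [hε']; exact min_le_right _ _
    have hε'2 : ε' ≤ ε / 16 := by rw [hε']; exact min_le_left _ _
    obtain ⟨k₀, hk₀⟩ := hbetween ε' hε'0 (by linarith)
    obtain ⟨k₁, hk₁⟩ := hω θ hθa ε' hε'0
    obtain ⟨k₂, hk₂⟩ := exists_nat_gt (B / ε')
    obtain ⟨K₀, hK₀⟩ := hloc (max k₀ (max k₁ (k₂ + 1)))
    refine ⟨K₀, fun K hK => ?_⟩
    obtain ⟨k, hk, hkM1, hkM2⟩ := hK₀ K hK
    have hka : k₀ ≤ k := (le_max_left _ _).trans hk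
    have hkb : k₁ ≤ k := ((le_max_left _ _).trans (le_max_right _ _)).trans hk
    have hkc : k₂ + 1 ≤ k := ((le_max_right _ _).trans (le_max_right _ _)).trans hk
    obtain ⟨b1, b2, b3, b4⟩ := hk₀ k hka
    have hk1 : (1 : ℝ) ≤ k := by exact_mod_cast b4
    have hk0 : (0 : ℝ) < (k : ℝ) ^ 2 := by positivity
    have h1 := hk₁ k hkb
    rw [sum_cent] at h1
    have h2 : ‖∑ m ∈ below ξ ω (M k), e (θ * m)‖ ≤ ε' * (k : ℝ) ^ 2 + B := by
      have h3 := norm_sub_norm_le (∑ m ∈ below ξ ω (M k), e (θ * m))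
        (∑ m ∈ range (M k), (p m : ℂ) * e (θ * m))
      have h4 := hB (M k)
      linarith
    have h5 : B ≤ ε' * (k : ℝ) ^ 2 := by
      rw [div_lt_iff₀ hε'0] at hk₂
      have h6 : (k₂ : ℝ) + 1 ≤ k := by exact_mod_cast hkc
      have h7 : (k₂ : ℝ) * ε' ≤ ε' * (k : ℝ) ^ 2 := by nlinarith
      linarith
    have h8 : ‖∑ m ∈ below ξ ω K, e (θ * m)‖ ≤ ‖∑ m ∈ below ξ ω (M k), e (θ * m)‖ +
        ((below ξ ω K).card - (below ξ ω (M k)).card : ℝ) := by
      have h9 : ∑ m ∈ below ξ ω K, e (θ * m) = ∑ m ∈ below ξ ω (M k), e (θ * m) +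
          ∑ m ∈ below ξ ω K \ below ξ ω (M k), e (θ * m) := by
        rw [add_comm, sum_sdiff (hNmono _ _ hkM1)]
      rw [h9]
      refine (norm_add_le _ _).trans (add_le_add le_rfl ?_)
      refine (norm_sum_le _ _).trans ?_
      simp only [norm_e, sum_const, nsmul_eq_mul, mul_one]
      rw [card_sdiff_of_subset (hNmono _ _ hkM1), Nat.cast_sub (card_le_card (hNmono _ _ hkM1))]
    have n1 := b1.trans (hcardmono _ _ hkM1)
    have n2 := (hcardmono _ _ hkM2.le).trans b2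
    nlinarith

end

end Pool.Agent.L5helper14.RDM
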