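import Pool.Agent.L5helper14.RDM.Fam

/-!
# Exponential sums along random walks added to arbitrary sequences (helper file)

Owner helper14.
-/

set_option autoImplicit false

namespace Pool.Agent.L5helper14.RDM

open Finset Filter MeasureTheory ProbabilityTheory Topology
open Pool.Agent.H469R2.NK (e norm_e e_add)

section

variable {Ω : Type} [MeasurableSpace Ω] {P : Measure Ω} [IsProbabilityMeasure P]

/-- **A strong law from the second moments.** -/
theorem slln {Z : ℕ → Ω → ℂ} (hZ : ∀ n, Measurable (Z n)) (h1 : ∀ n ω, ‖Z n ω‖ ≤ 1) {C : ℝ}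
    (h2 : ∀ N : ℕ, ∫ ω, ‖∑ n ∈ range N, Z n ω‖ ^ 2 ∂P ≤ C * N) :
    ∀ᵐ ω ∂P, ∀ ε : ℝ, 0 < ε → ∃ N₀ : ℕ, ∀ N, N₀ ≤ N → ‖∑ n ∈ range N, Z n ω‖ ≤ ε * N := by
  obtain ⟨W, hW⟩ : ∃ W : ℕ → Ω → ℝ, W = fun N ω => ‖∑ n ∈ range N, Z n ω‖ ^ 2 := ⟨_, rfl⟩
  have hWm : ∀ N, Measurable (W N) := by
    intro N
    rw [hW]
    exact ((Finset.measurable_sum _ fun n _ => hZ n).norm).pow_const 2
  have hW0 : ∀ N ω, 0 ≤ W N ω := fun N ω => by rw [hW]; positivity
  have hWb : ∀ N ω, W N ω ≤ (N : ℝ) ^ 2 := by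
    intro N ω
    rw [hW]
    apply pow_le_pow_left₀ (norm_nonneg _)
    refine (norm_sum_le _ _).trans ((sum_le_sum fun n _ => h1 n ω).trans ?_)
    simp
  have hWi : ∀ N, Integrable (W N) P := fun N =>
    Integrable.of_bound (hWm N).aestronglyMeasurable ((N : ℝ) ^ 2)
      (Eventually.of_forall fun ω => by rw [Real.norm_of_nonneg (hW0 N ω)]; exact hWb N ω)
  obtain ⟨F, hF⟩ : ∃ F : ℕ → Ω → ENNReal, F = fun k ω =>
    ENNReal.ofReal (W ((k + 1) ^ 2) ω / ((k + 1 : ℕ) : ℝ) ^ 4) := ⟨_, rfl⟩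
  have hFm : ∀ k, Measurable (F k) := by
    intro k
    rw [hF]
    exact ((hWm _).div_const _).ennreal_ofReal
  have hFi : ∀ k, ∫⁻ ω, F k ω ∂P ≤ ENNReal.ofReal (C * (1 / ((k + 1 : ℕ) : ℝ) ^ 2)) := by
    intro k
    have hk : (0 : ℝ) < ((k + 1 : ℕ) : ℝ) := by exact_mod_cast Nat.succ_pos k
    rw [hF]
    simp only
    rw [← ofReal_integral_eq_lintegral_ofReal ((hWi _).div_const _)
      (Eventually.of_forall fun ω => div_nonneg (hW0 _ _) (by positivity)), integral_div]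
    apply ENNReal.ofReal_le_ofReal
    have h3 := h2 ((k + 1) ^ 2)
    have h4 : ∫ ω, W ((k + 1) ^ 2) ω ∂P ≤ C * (((k + 1 : ℕ) : ℝ) ^ 2) := by
      rw [hW]
      push_cast at h3 ⊢
      exact h3
    rw [div_le_iff₀ (by positivity)]
    refine h4.trans (le_of_eq ?_)
    field_simp
  have hsum : ∑' k : ℕ, ENNReal.ofReal (C * (1 / ((k + 1 : ℕ) : ℝ) ^ 2)) ≠ ⊤ := by
    have hs : Summable fun k : ℕ => C * (1 / ((k + 1 : ℕ) : ℝ) ^ 2) := by
      have h3 : Summable fun k : ℕ => 1 / ((k : ℕ) : ℝ) ^ 2 :=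
        Real.summable_one_div_nat_pow.2 (by norm_num)
      exact ((summable_nat_add_iff 1).2 h3).mul_left C
    exact hs.tsum_ofReal_ne_top
  have hfin : ∫⁻ ω, ∑' k, F k ω ∂P ≠ ⊤ := by
    rw [lintegral_tsum fun k => (hFm k).aemeasurable]
    exact ne_top_of_le_ne_top hsum (ENNReal.tsum_le_tsum hFi)
  have hae := ae_lt_top' (AEMeasurable.tsum fun k => (hFm k).aemeasurable) hfin
  filter_upwards [hae] with ω hω ε hε
  have h5 := ENNReal.tendsto_atTop_zero_of_tsum_ne_top hω.ne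
  have h6 := h5.eventually (gt_mem_nhds (show (0 : ENNReal) < ENNReal.ofReal ((ε / 2) ^ 2) from
    ENNReal.ofReal_pos.2 (by positivity)))
  obtain ⟨k₀, hk₀⟩ := h6.exists_forall_of_atTop
  obtain ⟨M, hM⟩ := exists_nat_gt (4 / ε)
  refine ⟨(k₀ + 1) ^ 2 + M ^ 2 + 1, fun N hN => ?_⟩
  obtain ⟨q, hq⟩ : ∃ q, q = Nat.sqrt N := ⟨_, rfl⟩
  have hq1 : q ^ 2 ≤ N := by rw [hq]; exact Nat.sqrt_le' N
  have hq2 : N < (q + 1) ^ 2 := by rw [hq]; exact Nat.lt_succ_sqrt' N
  have hq3 : k₀ + 1 ≤ q := by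
    rw [hq]
    apply Nat.le_sqrt'.2
    omega
  have hqM : M ≤ q := by
    rw [hq]
    apply Nat.le_sqrt'.2
    omega
  have h7 := hk₀ (q - 1) (by omega)
  rw [hF] at h7
  simp only at h7
  rw [Nat.sub_add_cancel (by omega : 1 ≤ q)] at h7
  have h8 := (ENNReal.ofReal_lt_ofReal_iff (by positivity)).1 h7
  have hq0 : (0 : ℝ) < q := by exact_mod_cast (by omega : 0 < q)
  rw [div_lt_iff₀ (by positivity), hW] at h8
  simp only at h8
  have h9 : ‖∑ n ∈ range (q ^ 2), Z n ω‖ ≤ ε / 2 * (q : ℝ) ^ 2 := by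
    apply le_of_sq_le_sq _ (by positivity)
    have : (ε / 2 * (q : ℝ) ^ 2) ^ 2 = (ε / 2) ^ 2 * (q : ℝ) ^ 4 := by ring
    rw [this]
    exact h8.le
  have h10 : ‖∑ n ∈ range N, Z n ω‖ ≤ ‖∑ n ∈ range (q ^ 2), Z n ω‖ + (N - (q : ℝ) ^ 2) := by
    rw [range_eq_Ico, ← sum_Ico_consecutive _ (Nat.zero_le _) hq1]
    refine (norm_add_le _ _).trans (add_le_add (le_of_eq (by rw [range_eq_Ico])) ?_)
    refine (norm_sum_le _ _).trans ((sum_le_sum fun n _ => h1 n ω).trans ?_)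
    rw [sum_const, Nat.card_Ico, nsmul_eq_mul, mul_one, Nat.cast_sub hq1]
    push_cast
    rfl
  have h11 : (N : ℝ) < ((q : ℝ) + 1) ^ 2 := by exact_mod_cast hq2
  have h12 : ((q : ℝ)) ^ 2 ≤ N := by exact_mod_cast hq1
  have h13 : (4 : ℝ) ≤ ε * q := by
    rw [div_lt_iff₀ hε] at hM
    have : (M : ℝ) ≤ q := by exact_mod_cast hqM
    nlinarith
  have hq4 : (1 : ℝ) ≤ q := by exact_mod_cast (by omega : 1 ≤ q)
  nlinarith

/-- **The second moment.** -/
theorem second {Z : ℕ → Ω → ℂ} (hZ : ∀ n, Measurable (Z n)) (h1 : ∀ n ω, ‖Z n ω‖ ≤ 1) {ρ : ℝ}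
    (hρ : 0 ≤ ρ) (hρ1 : ρ < 1)
    (h2 : ∀ m n, m ≤ n → ‖∫ ω, Z n ω * (starRingEnd ℂ) (Z m ω) ∂P‖ ≤ ρ ^ (n - m)) (N : ℕ) :
    ∫ ω, ‖∑ n ∈ range N, Z n ω‖ ^ 2 ∂P ≤ 2 / (1 - ρ) * N := by
  have hint : ∀ n m, Integrable (fun ω => Z n ω * (starRingEnd ℂ) (Z m ω)) P := by
    intro n m
    refine Integrable.of_bound ((hZ n).mul
      (Complex.continuous_conj.measurable.comp (hZ m))).aestronglyMeasurable 1
      (Eventually.of_forall fun ω => ?_)
    rw [norm_mul, Complex.norm_conj]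
    nlinarith [h1 n ω, h1 m ω, norm_nonneg (Z n ω), norm_nonneg (Z m ω)]
  have h3 : ∀ m n, ‖∫ ω, Z n ω * (starRingEnd ℂ) (Z m ω) ∂P‖ ≤ ρ ^ (max n m - min n m) := by
    intro m n
    rcases le_total m n with h | h
    · rw [max_eq_left h, min_eq_right h]
      exact h2 m n h
    · rw [max_eq_right h, min_eq_left h]
      refine le_trans (le_of_eq ?_) (h2 n m h)
      rw [← Complex.norm_conj, ← integral_conj]
      congr 1
      refine integral_congr_ae (Eventually.of_forall fun ω => ?_)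
      simp only [map_mul, Complex.conj_conj]
      ring
  have h4 : ((∫ ω, ‖∑ n ∈ range N, Z n ω‖ ^ 2 ∂P : ℝ) : ℂ) =
      ∑ n ∈ range N, ∑ m ∈ range N, ∫ ω, Z n ω * (starRingEnd ℂ) (Z m ω) ∂P := by
    rw [← integral_complex_ofReal]
    have h5 : ∀ ω, (((‖∑ n ∈ range N, Z n ω‖ ^ 2 : ℝ)) : ℂ) =
        ∑ n ∈ range N, ∑ m ∈ range N, Z n ω * (starRingEnd ℂ) (Z m ω) := by
      intro ω
      rw [← Complex.normSq_eq_norm_sq, ← Complex.mul_conj, map_sum, sum_mul_sum]
    simp_rw [h5]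
    rw [integral_finsetSum _ fun n _ => integrable_finsetSum _ fun m _ => hint n m]
    exact sum_congr rfl fun n _ => integral_finsetSum _ fun m _ => hint n m
  have h6 : ∫ ω, ‖∑ n ∈ range N, Z n ω‖ ^ 2 ∂P ≤
      ∑ n ∈ range N, ∑ m ∈ range N, ρ ^ (max n m - min n m) := by
    have h7 : ∫ ω, ‖∑ n ∈ range N, Z n ω‖ ^ 2 ∂P =
        ‖((∫ ω, ‖∑ n ∈ range N, Z n ω‖ ^ 2 ∂P : ℝ) : ℂ)‖ := by
      rw [Complex.norm_real, Real.norm_of_nonneg (integral_nonneg fun ω => by positivity)]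
    rw [h7, h4]
    refine (norm_sum_le _ _).trans (sum_le_sum fun n _ => (norm_sum_le _ _).trans
      (sum_le_sum fun m _ => h3 m n))
  have hgeom : ∀ M : ℕ, ∑ j ∈ range M, ρ ^ j ≤ 1 / (1 - ρ) := by
    intro M
    have h8 : Summable fun j : ℕ => ρ ^ j := summable_geometric_of_lt_one hρ hρ1
    have h9 := h8.sum_le_tsum (range M) fun j _ => pow_nonneg hρ j
    rwa [tsum_geometric_of_lt_one hρ hρ1, ← one_div] at h9
  have h10 : ∀ n, ∑ m ∈ range N, ρ ^ (max n m - min n m) ≤ 2 / (1 - ρ) := by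
    intro n
    have h11 : ∑ m ∈ range N, ρ ^ (max n m - min n m) ≤
        ∑ m ∈ range (n + 1), ρ ^ (n - m) + ∑ m ∈ range N, ρ ^ m := by
      have e1 : ∀ m, ρ ^ (max n m - min n m) ≤
          (if m ≤ n then ρ ^ (n - m) else 0) + (if n ≤ m then ρ ^ (m - n) else 0) := by
        intro m
        rcases le_total m n with h | h
        · rw [max_eq_left h, min_eq_right h, if_pos h]
          have : (0 : ℝ) ≤ if n ≤ m then ρ ^ (m - n) else 0 := by
            split_ifs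
            · exact pow_nonneg hρ _
            · exact le_rfl
          linarith
        · rw [max_eq_right h, min_eq_left h, if_pos h]
          have : (0 : ℝ) ≤ if m ≤ n then ρ ^ (n - m) else 0 := by
            split_ifs
            · exact pow_nonneg hρ _
            · exact le_rfl
          linarith
      refine (sum_le_sum fun m _ => e1 m).trans ?_
      rw [sum_add_distrib, ← sum_filter, ← sum_filter]
      apply add_le_add
      · apply sum_le_sum_of_subset_of_nonneg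
        · intro m hm
          have := (mem_filter.1 hm).2
          exact mem_range.2 (by omega)
        · intro m _ _
          exact pow_nonneg hρ _
      · have e2 : ∑ m ∈ (range N).filter (fun m => n ≤ m), ρ ^ (m - n) =
            ∑ j ∈ ((range N).filter (fun m => n ≤ m)).image (fun m => m - n), ρ ^ j := by
          rw [sum_image]
          intro x hx y hy hxy
          have hx' := (mem_filter.1 (mem_coe.1 hx)).2
          have hy' := (mem_filter.1 (mem_coe.1 hy)).2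
          simp only at hxy
          omega
        rw [e2]
        apply sum_le_sum_of_subset_of_nonneg
        · intro j hj
          obtain ⟨m, hm, rfl⟩ := mem_image.1 hj
          have := mem_range.1 (mem_filter.1 hm).1
          exact mem_range.2 (by omega)
        · intro m _ _
          exact pow_nonneg hρ _
    have h12 : ∑ m ∈ range (n + 1), ρ ^ (n - m) = ∑ m ∈ range (n + 1), ρ ^ m := by
      have := sum_range_reflect (fun j => ρ ^ j) (n + 1)
      rw [← this]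
      refine sum_congr rfl fun m _ => ?_
      congr 1
    rw [h12] at h11
    have h13 := hgeom (n + 1)
    have h14 := hgeom N
    have h15 : 2 / (1 - ρ) = 1 / (1 - ρ) + 1 / (1 - ρ) := by ring
    rw [h15]
    linarith
  refine h6.trans ((sum_le_sum fun n _ => h10 n).trans (le_of_eq ?_))
  rw [sum_const, card_range, nsmul_eq_mul]
  ring

lemma continuous_e : Continuous e := by
  unfold Pool.Agent.H469R2.NK.e
  fun_prop

lemma e_conj (x : ℝ) : (starRingEnd ℂ) (e x) = e (-x) := by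
  unfold Pool.Agent.H469R2.NK.e
  rw [← Complex.exp_conj, map_mul, Complex.conj_I, Complex.conj_ofReal]
  congr 1
  push_cast
  ring

lemma e_eq_one_iff (x : ℝ) : e x = 1 ↔ ∃ z : ℤ, x = z := by
  unfold Pool.Agent.H469R2.NK.e
  rw [Complex.exp_eq_one_iff]
  have hpi : (2 * Real.pi : ℂ) * Complex.I ≠ 0 := Complex.two_pi_I_ne_zero
  constructor
  · rintro ⟨n, hn⟩
    refine ⟨n, ?_⟩
    have h1 : ((x : ℝ) : ℂ) * (2 * Real.pi * Complex.I) = (n : ℂ) * (2 * Real.pi * Complex.I) := by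
      rw [← hn]
      push_cast
      ring
    have h2 := mul_right_cancel₀ hpi h1
    exact_mod_cast h2
  · rintro ⟨n, rfl⟩
    exact ⟨n, by push_cast; ring⟩

/-- The characteristic function of a random integer which is not constant is smaller than one at
irrational frequencies. -/
lemma char_lt {X : Ω → ℕ} (hne : ¬ ∃ a : ℕ, ∀ᵐ ω ∂P, X ω = a) {θ : ℝ}
    (hθ : Irrational θ) : ‖∫ ω, e (θ * X ω) ∂P‖ < 1 := by
  have h1 := ae_eq_const_or_norm_integral_lt_of_norm_le_const (μ := P)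
    (f := fun ω => e (θ * X ω)) (C := 1) (Eventually.of_forall fun ω => (norm_e _).le)
  rcases h1 with h1 | h1
  · exfalso
    apply hne
    obtain ⟨ω₀, hω₀⟩ := h1.exists
    refine ⟨X ω₀, ?_⟩
    filter_upwards [h1] with ω hω
    have h2 : e (θ * X ω) = e (θ * X ω₀) := Eq.trans hω (Eq.symm hω₀)
    have h3 : e (θ * X ω - θ * X ω₀) = 1 := by
      rw [sub_eq_add_neg, e_add, h2, ← e_add, add_neg_cancel]
      simp [Pool.Agent.H469R2.NK.e]
    obtain ⟨z, hz⟩ := (e_eq_one_iff _).1 h3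
    by_contra hcon
    have h4 : ((X ω : ℤ) - X ω₀) ≠ 0 := sub_ne_zero.2 (by exact_mod_cast hcon)
    have h5 : Irrational (θ * ((X ω : ℤ) - X ω₀ : ℤ)) := hθ.mul_intCast h4
    apply h5.ne_int z
    rw [← hz]
    push_cast
    ring
  · simpa using h1

omit [IsProbabilityMeasure P] in
/-- Independent steps. -/
lemma char_block {X : ℕ → Ω → ℕ} (hX : ∀ i, Measurable (X i)) (hind : iIndepFun X P)
    (hid : ∀ i, IdentDistrib (X i) (X 0) P P) (θ : ℝ) (s : Finset ℕ) :
    ∫ ω, ∏ i ∈ s, e (θ * X i ω) ∂P = (∫ ω, e (θ * X 0 ω) ∂P) ^ s.card := by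
  have h1 : iIndepFun (fun i : s => X i) P := hind.precomp Subtype.val_injective
  have h2 := h1.integral_fun_prod_comp (𝕜 := ℂ) (f := fun _ (x : ℕ) => e (θ * x))
    (fun i => (hX i).aemeasurable) (fun i => (Measurable.of_discrete).aestronglyMeasurable)
  have h3 : ∀ ω, ∏ i ∈ s, e (θ * X i ω) = ∏ i : s, e (θ * X i ω) := by
    intro ω
    exact (Finset.prod_coe_sort s fun i => e (θ * X i ω)).symm
  simp_rw [h3]
  rw [h2]
  have h4 : ∀ i : s, ∫ ω, e (θ * X i ω) ∂P = ∫ ω, e (θ * X 0 ω) ∂P := fun i =>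
    ((hid i).comp (u := fun x : ℕ => e (θ * x)) Measurable.of_discrete).integral_eq
  rw [prod_congr rfl fun i _ => h4 i, prod_const, card_univ, Fintype.card_coe]

/-- The random walk added to the sequence `c`. -/
def walk (c : ℕ → ℕ) (X : ℕ → Ω → ℕ) (n : ℕ) (ω : Ω) : ℕ := c n + ∑ i ∈ range (n + 1), X i ω

lemma measurable_walk (c : ℕ → ℕ) {X : ℕ → Ω → ℕ} (hX : ∀ i, Measurable (X i)) (n : ℕ) :
    Measurable (walk c X n) := by
  unfold walk
  exact (Finset.measurable_sum _ fun i _ => hX i).const_add _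

/-- **Exponential sums along a random walk added to an arbitrary sequence.** -/
theorem walk_small (c : ℕ → ℕ) {X : ℕ → Ω → ℕ} (hX : ∀ i, Measurable (X i)) (hind : iIndepFun X P)
    (hid : ∀ i, IdentDistrib (X i) (X 0) P P) (hne : ¬ ∃ a : ℕ, ∀ᵐ ω ∂P, X 0 ω = a) :
    ∀ᵐ ω ∂P, USmall (fun K => {range K}) fun n => walk c X n ω := by
  have hcount : {θ : ℝ | IsAlgebraic ℤ θ}.Countable := Algebraic.countable ℤ ℝ
  have h1 : ∀ᵐ ω ∂P, ∀ θ ∈ {θ : ℝ | IsAlgebraic ℤ θ}, Irrational θ →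
      ∀ ε : ℝ, 0 < ε → ∃ N₀ : ℕ, ∀ N, N₀ ≤ N → ‖∑ n ∈ range N, e (θ * walk c X n ω)‖ ≤ ε * N := by
    rw [ae_ball_iff hcount]
    intro θ _
    by_cases hθ : Irrational θ
    · obtain ⟨φ, hφ⟩ : ∃ φ : ℂ, φ = ∫ ω, e (θ * X 0 ω) ∂P := ⟨_, rfl⟩
      have hφ1 : ‖φ‖ < 1 := by rw [hφ]; exact char_lt hne hθ
      have hZ : ∀ n, Measurable fun ω => e (θ * walk c X n ω) := fun n =>
        continuous_e.measurable.comp ((measurable_from_top.comp (measurable_walk c hX n)).const_mul θ)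
      have hcov : ∀ m n, m ≤ n → ‖∫ ω, e (θ * walk c X n ω) *
          (starRingEnd ℂ) (e (θ * walk c X m ω)) ∂P‖ ≤ ‖φ‖ ^ (n - m) := by
        intro m n hmn
        have h2 : ∀ ω, e (θ * walk c X n ω) * (starRingEnd ℂ) (e (θ * walk c X m ω)) =
            e (θ * c n - θ * c m) * ∏ i ∈ Ico (m + 1) (n + 1), e (θ * X i ω) := by
          intro ω
          rw [e_conj, ← e_add, ← e_sum, ← e_add]
          congr 1
          unfold walk
          have h3 : ∑ i ∈ range (n + 1), X i ω = ∑ i ∈ range (m + 1), X i ω +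
              ∑ i ∈ Ico (m + 1) (n + 1), X i ω := by
            rw [range_eq_Ico, range_eq_Ico, sum_Ico_consecutive _ (Nat.zero_le _) (by omega)]
          rw [h3, ← mul_sum]
          push_cast
          ring
        simp_rw [h2]
        rw [integral_const_mul, norm_mul, norm_e, one_mul, char_block hX hind hid, ← hφ, norm_pow,
          Nat.card_Ico]
        apply le_of_eq
        congr 1
        omega
      have h5 := second (P := P) hZ (fun n ω => (norm_e _).le) (norm_nonneg φ) hφ1 hcov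
      have h6 := slln (P := P) hZ (fun n ω => (norm_e _).le) h5
      filter_upwards [h6] with ω hω _
      exact hω
    · exact Eventually.of_forall fun ω h => absurd h hθ
  filter_upwards [h1] with ω hω θ hθ hθa ε hε
  obtain ⟨N₀, hN₀⟩ := hω θ hθa hθ ε hε
  refine ⟨N₀, fun K hK s hs => ?_⟩
  rw [Set.mem_singleton_iff.1 hs, card_range]
  exact hN₀ K hK

end

end Pool.Agent.L5helper14.RDM
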